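import Mathlib

/-!
# An automorphism of order `l` of a group of exponent `l` has a fixed point
-/

set_option autoImplicit false

namespace Pool.Agent.H28.KL

theorem fix_add {A : Type*} [AddCommGroup A] {l : ℕ} (hl : l.Prime) (T : AddMonoid.End A)
    (hT : T ^ l = 1) (h : ∀ a : A, l • a = 0 → T a = a → a = 0) (a : A) (ha : l • a = 0) :
    a = 0 := by
  have hc : Commute T (-1 : AddMonoid.End A) := (Commute.one_right T).neg_right
  obtain ⟨r, hr⟩ := hc.exists_add_pow_prime_eq hl
  -- `(T - 1) ^ l` kills the `l`-torsion
  have h1 : ∀ b : A, l • b = 0 → ((T + -1) ^ l) b = 0 := by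
    intro b hb
    rw [hr, hT]
    have h2 : ((l : AddMonoid.End A) * T * (-1) * r) b = 0 := by
      have h3 : ((l : AddMonoid.End A) * T * (-1) * r) b = (l : AddMonoid.End A) ((T * (-1) * r) b) := by
        rw [mul_assoc, mul_assoc, ← mul_assoc T]
        rfl
      rw [h3]
      have h4 : (l : AddMonoid.End A) ((T * (-1) * r) b) = l • ((T * (-1) * r) b) := by
        rw [AddMonoid.End.natCast_apply]
      rw [h4, ← map_nsmul, hb, map_zero]
    have h3 : ((1 : AddMonoid.End A) + (-1) ^ l + (l : AddMonoid.End A) * T * (-1) * r) b =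
        (1 : AddMonoid.End A) b + ((-1 : AddMonoid.End A) ^ l) b +
        ((l : AddMonoid.End A) * T * (-1) * r) b := rfl
    rw [h3, h2, add_zero]
    rcases hl.eq_two_or_odd' with h3 | h3
    · rw [h3, neg_one_sq]
      change b + b = 0
      rw [h3, two_nsmul] at hb
      exact hb
    · rw [h3.neg_one_pow]
      change b + (-b) = 0
      rw [add_neg_cancel]
  have h5 : ∀ k : ℕ, ∀ b : A, l • b = 0 → ((T + -1) ^ k) b = 0 → b = 0 := by
    intro k
    induction k with
    | zero =>
      intro b _ hb
      rw [pow_zero] at hb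
      exact hb
    | succ k ih =>
      intro b hb hk
      apply h b hb
      have h6 : (T + -1) b = 0 := by
        apply ih
        · rw [← map_nsmul, hb, map_zero]
        · rw [pow_succ] at hk
          exact hk
      have h7 : T b + -b = 0 := h6
      exact (eq_of_sub_eq_zero (by rw [sub_eq_add_neg]; exact h7))
  exact h5 l a ha (h1 a ha)

theorem fix_mul {A : Type*} [CommGroup A] {l : ℕ} (hl : l.Prime) (s : A →* A)
    (hs : ∀ a, s^[l] a = a) (h : ∀ a : A, a ^ l = 1 → s a = a → a = 1) (a : A) (ha : a ^ l = 1) :
    a = 1 := by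
  let T : AddMonoid.End (Additive A) := MonoidHom.toAdditive s
  have hT : T ^ l = 1 := by
    refine DFunLike.ext _ _ fun b => ?_
    have h1 : ∀ k : ℕ, ∀ b : Additive A, (T ^ k) b = Additive.ofMul (s^[k] (Additive.toMul b)) := by
      intro k
      induction k with
      | zero => intro b; rfl
      | succ k ih =>
        intro b
        rw [pow_succ, Function.iterate_succ_apply]
        change (T ^ k) (T b) = _
        rw [ih]
        rfl
    rw [h1 l b, hs]
    rfl
  have h2 := fix_add hl T hT (fun b hb hTb => by
    have h3 := h (Additive.toMul b) hb hTb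
    exact h3) (Additive.ofMul a) ha
  exact h2

end Pool.Agent.H28.KL
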