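import Pool.Agent.H28.KL.Dd
import Pool.Agent.H28.KL.Fix

/-!
# Ambiguous ideals
-/

set_option autoImplicit false

namespace Pool.Agent.H28.KL

open Finset

/-- if the `l`-th power of an ideal is principal then the ideal is principal -/
def PowP (l : ℕ) (R : Type) [CommRing R] : Prop :=
  ∀ I : Ideal R, (I ^ l).IsPrincipal → I.IsPrincipal

variable {F R R' : Type} [Field F] [CommRing R] [Algebra F R] [CommRing R'] [Algebra F R']
    [Algebra R R'] [IsScalarTower F R R'] {l : ℕ} {ζ : F} {p : R} {ω : R'} {σ : R' ≃ₐ[R] R'}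

theorem Kum.omega_prime [IsDomain R] (h : Kum l ζ p ω σ) (hp : Prime p) : Prime ω := by
  refine ⟨?_, ?_, ?_⟩
  · intro h0
    have h1 := h.pow
    rw [h0, zero_pow h.prime.ne_zero] at h1
    exact h.ne (h.inj (by rw [← h1, map_zero]))
  · intro hu
    have h1 : ω ∣ algebraMap R R' 1 := by
      rw [map_one]
      exact hu.dvd
    rw [h.omega_dvd_algebraMap] at h1
    exact hp.not_dvd_one h1
  · intro z w hzw
    have h1 := h.omega_dvd_sub z
    have h2 := h.omega_dvd_sub w
    have h3 : ω ∣ algebraMap R R' (h.co z 0 * h.co w 0) := by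
      have h4 : algebraMap R R' (h.co z 0 * h.co w 0) = z * w -
          ((z - algebraMap R R' (h.co z 0)) * w +
            algebraMap R R' (h.co z 0) * (w - algebraMap R R' (h.co w 0))) := by
        rw [map_mul]
        ring
      rw [h4]
      exact dvd_sub hzw (dvd_add (h1.mul_right _) (h2.mul_left _))
    rw [h.omega_dvd_algebraMap] at h3
    rw [h.omega_dvd_iff, h.omega_dvd_iff]
    exact hp.dvd_or_dvd h3

theorem mem_map_sig (σ : R' ≃ₐ[R] R') {I : Ideal R'} {x : R'} :
    x ∈ I.map σ ↔ ∃ y ∈ I, σ y = x :=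
  Ideal.mem_map_iff_of_surjective σ σ.surjective

theorem map_span_sig (σ : R' ≃ₐ[R] R') (a : R') :
    (Ideal.span {a}).map σ = Ideal.span {σ a} := by
  rw [Ideal.map_span, Set.image_singleton]

theorem iter_mem {M : Ideal R'} (hM : M.map σ = M) {z : R'} (hz : z ∈ M) (j : ℕ) :
    σ^[j] z ∈ M := by
  induction j with
  | zero => exact hz
  | succ j ih =>
    rw [Function.iterate_succ_apply', ← hM]
    exact Ideal.mem_map_of_mem σ ih

/-- the components of an element of an invariant ideal are in the ideal -/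
theorem Kum.comp_mem (h : Kum l ζ p ω σ) {M : Ideal R'} (hM : M.map σ = M) {z : R'}
    (hz : z ∈ M) {k : ℕ} (hk : k < l) : algebraMap R R' (h.co z k) * ω ^ k ∈ M := by
  have h2 := pr_sum (tau F σ) h.prim h.prime
    (fun i => algebraMap R R' (h.co z i) * ω ^ i) (fun i => h.sig_mono (h.co z i) i) hk
  rw [← h.eq_sum z] at h2
  have h3 : (l : F) • (algebraMap R R' (h.co z k) * ω ^ k) ∈ M := by
    rw [← h2]
    refine M.sum_mem fun j _ => ?_
    rw [Algebra.smul_def]
    exact M.mul_mem_left _ (iter_mem hM hz j)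
  have h4 : algebraMap R R' (h.co z k) * ω ^ k =
      algebraMap F R' (l : F)⁻¹ * ((l : F) • (algebraMap R R' (h.co z k) * ω ^ k)) := by
    rw [← Algebra.smul_def ((l : F)⁻¹), smul_smul, inv_mul_cancel₀ h.lF, one_smul]
  rw [h4]
  exact M.mul_mem_left _ h3

theorem bezout [IsDedekindDomain R] (hp : Prime p) {x : R} (hx : ¬ p ∣ x) :
    ∃ r s : R, p * r + x * s = 1 := by
  have h1 : (Ideal.span {p}).IsPrime := (Ideal.span_singleton_prime hp.1).2 hp
  have hmax : (Ideal.span {p}).IsMaximal := by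
    refine h1.isMaximal ?_
    rw [Ne, Ideal.span_singleton_eq_bot]
    exact hp.1
  have h2 : x ∉ Ideal.span {p} := by rwa [Ideal.mem_span_singleton]
  obtain ⟨y, m, hm, hy⟩ := hmax.exists_inv h2
  obtain ⟨r, rfl⟩ := Ideal.mem_span_singleton.1 hm
  exact ⟨r, y, by rw [← hy]; ring⟩

/-- an invariant ideal prime to `ω` comes from `R` -/
theorem Kum.eq_map [IsDedekindDomain R] (h : Kum l ζ p ω σ) (hp : Prime p) {M : Ideal R'}
    (hM : M.map σ = M) (hω : ¬ M ≤ Ideal.span {ω}) :
    M = (M.comap (algebraMap R R')).map (algebraMap R R') := by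
  apply le_antisymm _ Ideal.map_comap_le
  obtain ⟨m, hm, hmω⟩ := Set.not_subset.1 hω
  have hl := h.prime.pos
  have hm0 : algebraMap R R' (h.co m 0) ∈ M := by
    have h1 := h.comp_mem hM hm hl
    rwa [pow_zero, mul_one] at h1
  have hpm : ¬ p ∣ h.co m 0 := by
    intro h1
    apply hmω
    rw [SetLike.mem_coe, Ideal.mem_span_singleton, h.omega_dvd_iff]
    exact h1
  obtain ⟨r, s, hrs⟩ := bezout hp hpm
  intro z hz
  rw [h.eq_sum z]
  refine Ideal.sum_mem _ fun i hi => ?_
  have hi' := mem_range.1 hi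
  apply Ideal.mul_mem_right
  apply Ideal.mem_map_of_mem
  rw [Ideal.mem_comap]
  have h1 : algebraMap R R' (h.co z i) =
      (algebraMap R R' (h.co z i) * ω ^ i) * (ω ^ (l - i) * algebraMap R R' r) +
      algebraMap R R' (h.co m 0) * algebraMap R R' (h.co z i * s) := by
    have h2 : ω ^ i * ω ^ (l - i) = algebraMap R R' p := by
      rw [← pow_add, ← h.pow]
      congr 1
      omega
    have h3 : (algebraMap R R' (h.co z i) * ω ^ i) * (ω ^ (l - i) * algebraMap R R' r) =
        algebraMap R R' (h.co z i) * (ω ^ i * ω ^ (l - i)) * algebraMap R R' r := by ring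
    rw [h3, h2, ← map_mul, ← map_mul, ← map_mul, ← map_add]
    congr 1
    linear_combination (-h.co z i) * hrs
  rw [h1]
  exact M.add_mem (M.mul_mem_right _ (h.comp_mem hM hz hi')) (M.mul_mem_right _ hm0)

theorem Kum.co_omega_succ [IsDomain R] (h : Kum l ζ p ω σ) (z : R') {k : ℕ} (hk : k + 1 < l) :
    h.co (ω * z) (k + 1) = h.co z k := by
  have hl := h.prime.pos
  have h1 : h.co (ω * z) (k + 1) =
      (fun i => if i = 0 then p * h.co z (l - 1) else h.co z (i - 1)) (k + 1) := by
    refine h.co_eq (a := fun i => if i = 0 then p * h.co z (l - 1) else h.co z (i - 1)) ?_ hk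
    conv_lhs => rw [h.eq_sum z, mul_sum]
    rw [sum_shift' _ hl, sum_shift _ hl]
    congr 1
    · refine sum_congr rfl fun i _ => ?_
      rw [if_neg (Nat.succ_ne_zero i), Nat.add_sub_cancel]
      ring
    · rw [if_pos rfl, pow_zero, mul_one, map_mul, ← h.pow]
      have h1 : l = (l - 1) + 1 := by omega
      have h2 : ω ^ l = ω ^ (l - 1) * ω := by
        conv_lhs => rw [h1, pow_succ]
      rw [h2]
      ring
  rw [h1]
  change (if k + 1 = 0 then _ else h.co z (k + 1 - 1)) = _
  rw [if_neg (Nat.succ_ne_zero k), Nat.add_sub_cancel]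

theorem Kum.co_mem [IsDomain R] (h : Kum l ζ p ω σ) {J : Ideal R} {z : R'}
    (hz : z ∈ J.map (algebraMap R R')) : ∀ i < l, h.co z i ∈ J := by
  -- multiplication by `ω`
  have hω : ∀ z : R', (∀ i < l, h.co z i ∈ J) → ∀ i < l, h.co (ω * z) i ∈ J := by
    intro z hz i hi
    cases i with
    | zero =>
      rw [h.co_omega_zero]
      exact J.mul_mem_left _ (hz _ (by have := h.prime.pos; omega))
    | succ i =>
      rw [h.co_omega_succ z hi]
      exact hz i (by omega)
  have hω' : ∀ (j : ℕ) (z : R'), (∀ i < l, h.co z i ∈ J) → ∀ i < l, h.co (ω ^ j * z) i ∈ J := by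
    intro j
    induction j with
    | zero => intro z hz; simpa using hz
    | succ j ih =>
      intro z hz
      rw [pow_succ, mul_assoc]
      exact ih _ (hω z hz)
  have hsum : ∀ (s : Finset ℕ) (g : ℕ → R'), (∀ j ∈ s, ∀ i < l, h.co (g j) i ∈ J) →
      ∀ i < l, h.co (∑ j ∈ s, g j) i ∈ J := by
    classical
    intro s g
    induction s using Finset.induction_on with
    | empty =>
      intro _ i hi
      rw [sum_empty, h.co_zero hi]
      exact J.zero_mem
    | insert a s ha ih =>
      intro hg i hi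
      rw [sum_insert ha, h.co_add _ _ hi]
      exact J.add_mem (hg a (mem_insert_self a s) i hi)
        (ih (fun j hj => hg j (mem_insert_of_mem hj)) i hi)
  refine Submodule.span_induction (p := fun z _ => ∀ i < l, h.co z i ∈ J) ?_ ?_ ?_ ?_ hz
  · rintro _ ⟨r, hr, rfl⟩ i hi
    rw [h.co_algebraMap r hi]
    by_cases h0 : i = 0
    · rw [if_pos h0]
      exact hr
    · rw [if_neg h0]
      exact J.zero_mem
  · intro i hi
    rw [h.co_zero hi]
    exact J.zero_mem
  · intro z w _ _ hz hw i hi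
    rw [h.co_add z w hi]
    exact J.add_mem (hz i hi) (hw i hi)
  · intro w z _ hz
    rw [smul_eq_mul]
    conv =>
      intro i
      rw [h.eq_sum w, sum_mul]
    apply hsum
    intro j _ i hi
    rw [mul_assoc, h.co_mul_left _ _ hi]
    exact J.mul_mem_left _ (hω' j z hz i hi)

theorem Kum.comap_map [IsDomain R] (h : Kum l ζ p ω σ) (J : Ideal R) :
    (J.map (algebraMap R R')).comap (algebraMap R R') = J := by
  apply le_antisymm
  · intro r hr
    have h1 := h.co_mem (Ideal.mem_comap.1 hr) 0 h.prime.pos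
    rwa [h.co_algebraMap r h.prime.pos, if_pos rfl] at h1
  · exact Ideal.le_comap_map

theorem map_sig_map (σ : R' ≃ₐ[R] R') (J : Ideal R) :
    (J.map (algebraMap R R')).map σ = J.map (algebraMap R R') := by
  apply le_antisymm
  · rw [Ideal.map_le_iff_le_comap, Ideal.map_le_iff_le_comap]
    intro r hr
    rw [Ideal.mem_comap, Ideal.mem_comap, σ.commutes]
    exact Ideal.mem_map_of_mem _ hr
  · rw [Ideal.map_le_iff_le_comap]
    intro r hr
    rw [Ideal.mem_comap, ← σ.commutes]
    exact Ideal.mem_map_of_mem _ (Ideal.mem_map_of_mem _ hr)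

/-- an ideal of `R` with principal `l`-th power in `R'` -/
theorem Kum.descend [IsDedekindDomain R] [IsDedekindDomain R'] (h : Kum l ζ p ω σ) (hp : Prime p)
    (hu : ∀ u : R', IsUnit u → ∃ c : F, c ≠ 0 ∧ u = algebraMap F R' c)
    (hR : PowP l R) {J : Ideal R} (hω : ¬ J.map (algebraMap R R') ≤ Ideal.span {ω})
    (hJ : ((J.map (algebraMap R R')) ^ l).IsPrincipal) : J.IsPrincipal := by
  have hωp := h.omega_prime hp
  have hpr : (Ideal.span {ω}).IsPrime := (Ideal.span_singleton_prime hωp.1).2 hωp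
  obtain ⟨⟨y, hy⟩⟩ := hJ
  change (J.map (algebraMap R R')) ^ l = Ideal.span {y} at hy
  have hyω : ¬ ω ∣ y := by
    intro h1
    apply hω
    rw [← Ideal.span_singleton_le_span_singleton, ← hy] at h1
    exact hpr.le_of_pow_le h1
  have hy0 : y ≠ 0 := by
    rintro rfl
    exact hyω (dvd_zero ω)
  have h1 : Ideal.span {σ y} = Ideal.span {y} := by
    rw [← map_span_sig, ← hy, Ideal.map_pow, map_sig_map]
  obtain ⟨u, hu1⟩ := (Ideal.span_singleton_eq_span_singleton.1 h1.symm)
  obtain ⟨c, hc, huc⟩ := hu u u.isUnit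
  have h2 : tau F σ y = c • y := by
    rw [tau_apply, ← hu1, huc, Algebra.smul_def, mul_comm]
  have h3 := iter_smul _ h2 l
  have h4 : (tau F σ)^[l] y = y := h.sig_pow y
  rw [h4, Algebra.smul_def] at h3
  have h5 : c ^ l = 1 := by
    have h6 : algebraMap F R' (c ^ l) = 1 := by
      apply mul_right_cancel₀ hy0
      rw [one_mul, ← h3]
    exact (algebraMap F R').injective (by rw [h6, map_one])
  have : NeZero l := ⟨h.prime.ne_zero⟩
  obtain ⟨k, hk, hkc⟩ := h.prim.eq_pow_of_pow_eq_one h5
  have h6 := h.eigen (z := y) hk (by rw [hkc, ← Algebra.smul_def, ← h2, tau_apply])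
  have hk0 : k = 0 := by
    by_contra hk0
    apply hyω
    rw [h6]
    exact Dvd.dvd.mul_left (dvd_pow_self ω hk0) _
  rw [hk0, pow_zero, mul_one] at h6
  apply hR
  refine ⟨⟨h.co y 0, ?_⟩⟩
  change J ^ l = Ideal.span {h.co y 0}
  rw [← h.comap_map (J ^ l), ← h.comap_map (Ideal.span {h.co y 0}), Ideal.map_pow, hy,
    Ideal.map_span, Set.image_singleton, ← h6]

end Pool.Agent.H28.KL
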