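import Pool.Agent.H28.KL.Hil

/-!
# The class group of a Kummer extension
-/

set_option autoImplicit false

namespace Pool.Agent.H28.KL

open Finset

variable {F R R' : Type} [Field F] [CommRing R] [Algebra F R] [CommRing R'] [Algebra F R']
    [Algebra R R'] [IsScalarTower F R R'] {l : ℕ} {ζ : F} {p : R} {ω : R'} {σ : R' ≃ₐ[R] R'}

/-- the action on ideals -/
def mp (σ : R' ≃ₐ[R] R') (J : Ideal R') : Ideal R' := J.map σ

theorem mp_iter (σ : R' ≃ₐ[R] R') (I : Ideal R') (j : ℕ) (x : R') :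
    x ∈ (mp σ)^[j] I ↔ ∃ y ∈ I, σ^[j] y = x := by
  induction j generalizing x with
  | zero => simp
  | succ j ih =>
    rw [Function.iterate_succ_apply']
    constructor
    · intro hx
      obtain ⟨y, hy, rfl⟩ := (mem_map_sig σ).1 hx
      obtain ⟨z, hz, rfl⟩ := (ih y).1 hy
      exact ⟨z, hz, Function.iterate_succ_apply' _ _ _⟩
    · rintro ⟨z, hz, rfl⟩
      refine (mem_map_sig σ).2 ⟨σ^[j] z, (ih _).2 ⟨z, hz, rfl⟩, ?_⟩
      rw [Function.iterate_succ_apply']

theorem Kum.mp_l (h : Kum l ζ p ω σ) (I : Ideal R') : (mp σ)^[l] I = I := by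
  ext x
  rw [mp_iter]
  constructor
  · rintro ⟨y, hy, rfl⟩
    rwa [h.sig_pow]
  · intro hx
    exact ⟨x, hx, h.sig_pow x⟩

theorem mp_ne_bot (σ : R' ≃ₐ[R] R') {I : Ideal R'} (hI : I ≠ ⊥) (j : ℕ) :
    (mp σ)^[j] I ≠ ⊥ := by
  obtain ⟨x, hx, hx0⟩ := Submodule.exists_mem_ne_zero_of_ne_bot hI
  intro h
  have h1 : σ^[j] x ∈ (mp σ)^[j] I := (mp_iter σ I j _).2 ⟨x, hx, rfl⟩
  rw [h] at h1
  exact iter_ne_zero σ hx0 j h1

theorem mp_mul_span (σ : R' ≃ₐ[R] R') (a : R') (J : Ideal R') :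
    mp σ (Ideal.span {a} * J) = Ideal.span {σ a} * mp σ J := by
  unfold mp
  rw [Ideal.map_mul, map_span_sig]

theorem span_iter {a b : R'} {I : Ideal R'}
    (hab : Ideal.span {a} * I.map σ = Ideal.span {b} * I) (j : ℕ) :
    Ideal.span {σ^[j] a} * (mp σ)^[j + 1] I = Ideal.span {σ^[j] b} * (mp σ)^[j] I := by
  induction j with
  | zero => exact hab
  | succ j ih =>
    have h1 := congrArg (mp σ) ih
    rw [mp_mul_span, mp_mul_span] at h1
    simp only [Function.iterate_succ_apply'] at h1 ⊢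
    exact h1

theorem Kum.norm_assoc [IsDomain R] [IsDedekindDomain R'] (h : Kum l ζ p ω σ) {a b : R'}
    {I : Ideal R'} (hI : I ≠ ⊥) (hab : Ideal.span {a} * I.map σ = Ideal.span {b} * I) :
    ∃ u : R', IsUnit u ∧ Nm l σ b = u * Nm l σ a := by
  have hl := h.prime.pos
  have h1 : ∏ j ∈ range l, (Ideal.span {σ^[j] a} * (mp σ)^[j + 1] I) =
      ∏ j ∈ range l, (Ideal.span {σ^[j] b} * (mp σ)^[j] I) :=
    prod_congr rfl fun j _ => span_iter hab j
  rw [prod_mul_distrib, prod_mul_distrib, Ideal.prod_span_singleton,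
    Ideal.prod_span_singleton] at h1
  have h2 : ∏ j ∈ range l, (mp σ)^[j + 1] I = ∏ j ∈ range l, (mp σ)^[j] I := by
    obtain ⟨m, rfl⟩ := Nat.exists_eq_succ_of_ne_zero hl.ne'
    rw [Nat.succ_eq_add_one, prod_range_succ, prod_range_succ' _ m]
    congr 1
    exact h.mp_l I
  rw [h2] at h1
  have h3 : ∏ j ∈ range l, (mp σ)^[j] I ≠ 0 := by
    rw [prod_ne_zero_iff]
    intro j _
    exact mp_ne_bot σ hI j
  have h4 := mul_right_cancel₀ h3 h1
  obtain ⟨u, hu⟩ := Ideal.span_singleton_eq_span_singleton.1 h4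
  refine ⟨u, u.isUnit, ?_⟩
  unfold Nm
  rw [← hu, mul_comm]

theorem Kum.omega_dvd_Nm_sub [IsDomain R] (h : Kum l ζ p ω σ) (z : R') :
    ω ∣ Nm l σ z - algebraMap R R' (h.co z 0 ^ l) := by
  have h1 : ∀ j : ℕ, ω ∣ σ^[j] z - z := by
    intro j
    induction j with
    | zero => simp
    | succ j ih =>
      rw [Function.iterate_succ_apply']
      have h2 := h.omega_dvd_sig_sub (σ^[j] z)
      have h3 := dvd_add h2 ih
      rwa [sub_add_sub_cancel] at h3
  have h2 : ∀ n : ℕ, ω ∣ ∏ j ∈ range n, σ^[j] z - z ^ n := by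
    intro n
    induction n with
    | zero => simp
    | succ n ih =>
      rw [prod_range_succ, pow_succ]
      have h3 : (∏ j ∈ range n, σ^[j] z) * σ^[n] z - z ^ n * z =
          (∏ j ∈ range n, σ^[j] z - z ^ n) * σ^[n] z + z ^ n * (σ^[n] z - z) := by ring
      rw [h3]
      exact dvd_add (ih.mul_right _) ((h1 n).mul_left _)
  have h3 : ω ∣ z ^ l - algebraMap R R' (h.co z 0 ^ l) := by
    rw [map_pow]
    exact (h.omega_dvd_sub z).trans (sub_dvd_pow_sub_pow _ _ l)
  have h4 := dvd_add (h2 l) h3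
  rwa [sub_add_sub_cancel] at h4

theorem span_mul_cancel {A : Type} [CommRing A] [IsDomain A] {s : A} (hs : s ≠ 0) {I J : Ideal A}
    (h : Ideal.span {s} * I = Ideal.span {s} * J) : I = J := by
  ext x
  constructor
  · intro hx
    have h1 : s * x ∈ Ideal.span {s} * J := by
      rw [← h]
      exact Ideal.mem_span_singleton_mul.2 ⟨x, hx, rfl⟩
    obtain ⟨y, hy, hxy⟩ := Ideal.mem_span_singleton_mul.1 h1
    rwa [mul_left_cancel₀ hs hxy] at hy
  · intro hx
    have h1 : s * x ∈ Ideal.span {s} * I := by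
      rw [h]
      exact Ideal.mem_span_singleton_mul.2 ⟨x, hx, rfl⟩
    obtain ⟨y, hy, hxy⟩ := Ideal.mem_span_singleton_mul.1 h1
    rwa [mul_left_cancel₀ hs hxy] at hy

theorem principal_of_mul {A : Type} [CommRing A] [IsDomain A] {s : A} (hs : s ≠ 0) {I : Ideal A}
    (h : (Ideal.span {s} * I).IsPrincipal) : I.IsPrincipal := by
  obtain ⟨⟨t, ht⟩⟩ := h
  change Ideal.span {s} * I = Ideal.span {t} at ht
  have h1 : t ∈ Ideal.span {s} * I := by
    rw [ht]
    exact Ideal.mem_span_singleton_self t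
  obtain ⟨t', _, rfl⟩ := Ideal.mem_span_singleton_mul.1 h1
  refine ⟨⟨t', ?_⟩⟩
  rw [← Ideal.span_singleton_mul_span_singleton] at ht
  exact span_mul_cancel hs ht

theorem mul_principal {A : Type} [CommRing A] {s : A} {I : Ideal A} (h : I.IsPrincipal) :
    (Ideal.span {s} * I).IsPrincipal := by
  obtain ⟨⟨t, ht⟩⟩ := h
  change I = Ideal.span {t} at ht
  exact ⟨⟨s * t, by rw [ht, Ideal.span_singleton_mul_span_singleton]⟩⟩

/-- strip the prime `(ω)` from an ideal -/
theorem strip_ideal {A : Type} [CommRing A] [IsDedekindDomain A] {s : A} (hs : Prime s)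
    {I : Ideal A} (hI : I ≠ ⊥) :
    ∃ (k : ℕ) (J : Ideal A), I = Ideal.span {s ^ k} * J ∧ ¬ J ≤ Ideal.span {s} := by
  have h1 : FiniteMultiplicity (Ideal.span {s}) I := by
    apply FiniteMultiplicity.of_not_isUnit
    · rw [Ideal.isUnit_iff, Ideal.span_singleton_eq_top]
      exact hs.not_isUnit
    · exact hI
  obtain ⟨J, hJ, hJ'⟩ := h1.exists_eq_pow_mul_and_not_dvd
  refine ⟨multiplicity (Ideal.span {s}) I, J, ?_, ?_⟩
  · rw [← Ideal.span_singleton_pow]
    exact hJ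
  · rwa [← Ideal.dvd_iff_le]

theorem Kum.map_omega (h : Kum l ζ p ω σ) (k : ℕ) :
    (Ideal.span {ω ^ k}).map σ = Ideal.span {ω ^ k} := by
  have hz : IsUnit (algebraMap F R' (ζ ^ k)) := (IsUnit.mk0 _ (pow_ne_zero k h.zeta)).map _
  rw [map_span_sig, map_pow, h.sig, mul_pow, ← map_pow]
  exact Ideal.span_singleton_mul_left_unit hz _

/-- the hypotheses of the step -/
structure Hyp (F R R' : Type) [Field F] [CommRing R] [Algebra F R] [CommRing R'] [Algebra F R']
    (l : ℕ) (p : R) : Prop where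
  units : ∀ u : R', IsUnit u → ∃ c : F, c ≠ 0 ∧ u = algebraMap F R' c
  res : ∀ c : F, ∀ a m : R, ¬ p ∣ m → p ∣ a ^ l - algebraMap F R c * m ^ l → ∃ e : F, e ^ l = c
  pow : PowP l R

theorem Kum.ambiguous_aux [IsDedekindDomain R] [IsDedekindDomain R'] (h : Kum l ζ p ω σ)
    (hp : Prime p) (H : Hyp F R R' l p) {I : Ideal R'} (hI : (I ^ l).IsPrincipal)
    (hIω : ¬ I ≤ Ideal.span {ω}) {a b : R'} (ha : ¬ ω ∣ a)
    (hab : Ideal.span {a} * I.map σ = Ideal.span {b} * I) : I.IsPrincipal := by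
  have hωp := h.omega_prime hp
  have hl := h.prime.pos
  have hI0 : I ≠ ⊥ := by
    rintro rfl
    exact hIω bot_le
  have ha0 : a ≠ 0 := by
    rintro rfl
    exact ha (dvd_zero _)
  obtain ⟨u, hu, hN⟩ := h.norm_assoc hI0 hab
  obtain ⟨c, hc, rfl⟩ := H.units u hu
  -- `c` is an `l`-th power
  obtain ⟨e, rfl⟩ : ∃ e : F, e ^ l = c := by
    apply H.res c (h.co b 0) (h.co a 0)
    · rwa [← h.omega_dvd_iff]
    · rw [← h.omega_dvd_algebraMap]
      have h1 : algebraMap R R' (h.co b 0 ^ l - algebraMap F R c * h.co a 0 ^ l) =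
          algebraMap F R' c * (Nm l σ a - algebraMap R R' (h.co a 0 ^ l)) -
          (Nm l σ b - algebraMap R R' (h.co b 0 ^ l)) := by
        rw [hN, map_sub, map_mul, ← IsScalarTower.algebraMap_apply F R R']
        ring
      rw [h1]
      exact dvd_sub ((h.omega_dvd_Nm_sub a).mul_left _) (h.omega_dvd_Nm_sub b)
  have he : e ≠ 0 := by
    rintro rfl
    exact hc (zero_pow h.prime.ne_zero)
  obtain ⟨x, hx, hbx⟩ := h.hilbert he ha0 hN
  -- the invariant ideal
  set M := Ideal.span {x} * I with hM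
  have hMs : M.map σ = M := by
    apply span_mul_cancel ha0
    have heu : IsUnit (algebraMap F R' e) := (IsUnit.mk0 _ he).map _
    calc Ideal.span {a} * M.map σ = Ideal.span {σ x} * (Ideal.span {a} * I.map σ) := by
          rw [hM, Ideal.map_mul, map_span_sig]
          ring
      _ = Ideal.span {b * σ x} * I := by
          rw [hab, ← mul_assoc, Ideal.span_singleton_mul_span_singleton, mul_comm (σ x)]
      _ = Ideal.span {a * x} * I := by
          rw [hbx, mul_assoc, Ideal.span_singleton_mul_left_unit heu]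
      _ = Ideal.span {a} * M := by
          rw [hM, ← mul_assoc, Ideal.span_singleton_mul_span_singleton]
  have hM0 : M ≠ ⊥ := by
    rw [hM, Ne, Ideal.mul_eq_bot, not_or]
    refine ⟨?_, hI0⟩
    rw [Ideal.span_singleton_eq_bot]
    exact hx
  obtain ⟨k, M', hMM', hM'⟩ := strip_ideal hωp hM0
  have hωk : ω ^ k ≠ 0 := pow_ne_zero k hωp.1
  have hM's : M'.map σ = M' := by
    apply span_mul_cancel hωk
    have h1 : M.map σ = Ideal.span {ω ^ k} * M'.map σ := by
      conv_lhs => rw [hMM', Ideal.map_mul, h.map_omega]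
    rw [← h1, hMs, ← hMM']
  have hJ := h.eq_map hp hM's hM'
  have hMl : (M ^ l).IsPrincipal := by
    rw [hM, mul_pow, Ideal.span_singleton_pow]
    exact mul_principal hI
  have hM'l : (M' ^ l).IsPrincipal := by
    rw [hMM', mul_pow, Ideal.span_singleton_pow] at hMl
    exact principal_of_mul (pow_ne_zero l hωk) hMl
  have hJp : (M'.comap (algebraMap R R')).IsPrincipal := by
    apply h.descend hp H.units H.pow
    · rwa [← hJ]
    · rwa [← hJ]
  have hM'p : M'.IsPrincipal := by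
    obtain ⟨⟨t, ht⟩⟩ := hJp
    change M'.comap (algebraMap R R') = Ideal.span {t} at ht
    rw [ht, Ideal.map_span, Set.image_singleton] at hJ
    exact ⟨⟨algebraMap R R' t, hJ⟩⟩
  have hMp : M.IsPrincipal := by
    rw [hMM']
    exact mul_principal hM'p
  exact principal_of_mul hx hMp

theorem Kum.not_le_sig [IsDomain R] (h : Kum l ζ p ω σ) {I : Ideal R'}
    (hI : ¬ I ≤ Ideal.span {ω}) : ¬ I.map σ ≤ Ideal.span {ω} := by
  intro h1
  apply hI
  intro x hx
  have h2 := Ideal.mem_span_singleton.1 (h1 (Ideal.mem_map_of_mem σ hx))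
  rw [Ideal.mem_span_singleton]
  have h3 := dvd_sub h2 (h.omega_dvd_sig_sub x)
  rwa [sub_sub_cancel] at h3

theorem not_le_mul {A : Type} [CommRing A] [IsDomain A] {s : A} (hs : Prime s) {a : A}
    (ha : ¬ s ∣ a) {J : Ideal A} (hJ : ¬ J ≤ Ideal.span {s}) :
    ¬ Ideal.span {a} * J ≤ Ideal.span {s} := by
  have hpr : (Ideal.span {s}).IsPrime := (Ideal.span_singleton_prime hs.1).2 hs
  rw [hpr.mul_le, not_or]
  refine ⟨?_, hJ⟩
  rwa [Ideal.span_singleton_le_span_singleton]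

theorem cancel_aux {A : Type} [CommRing A] [IsDomain A] {s : A} (hs : Prime s) {m n : ℕ}
    {X Y : Ideal A} (hX : ¬ X ≤ Ideal.span {s}) (hmn : m ≤ n)
    (h : Ideal.span {s ^ m} * X = Ideal.span {s ^ n} * Y) : X = Y := by
  have hn : n = m + (n - m) := by omega
  rw [hn, pow_add, ← Ideal.span_singleton_mul_span_singleton, mul_assoc] at h
  have h1 := span_mul_cancel (pow_ne_zero m hs.1) h
  rcases Nat.eq_zero_or_pos (n - m) with h0 | h0
  · rw [h0, pow_zero, Ideal.span_singleton_one, Ideal.top_mul] at h1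
    exact h1
  · exfalso
    apply hX
    rw [h1]
    refine Ideal.mul_le_left.trans ?_
    rw [Ideal.span_singleton_le_span_singleton]
    exact dvd_pow_self s h0.ne'

theorem Kum.ambiguous [IsDedekindDomain R] [IsDedekindDomain R'] (h : Kum l ζ p ω σ)
    (hp : Prime p) (H : Hyp F R R' l p) {I : Ideal R'} (hI0 : I ≠ ⊥) (hI : (I ^ l).IsPrincipal)
    {a b : R'} (ha : a ≠ 0) (hb : b ≠ 0)
    (hab : Ideal.span {a} * I.map σ = Ideal.span {b} * I) : I.IsPrincipal := by
  have hωp := h.omega_prime hp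
  obtain ⟨k, J, hIJ, hJ⟩ := strip_ideal hωp hI0
  have hωk : ω ^ k ≠ 0 := pow_ne_zero k hωp.1
  have hJl : (J ^ l).IsPrincipal := by
    rw [hIJ, mul_pow, Ideal.span_singleton_pow] at hI
    exact principal_of_mul (pow_ne_zero l hωk) hI
  have hab1 : Ideal.span {a} * J.map σ = Ideal.span {b} * J := by
    apply span_mul_cancel hωk
    rw [hIJ, Ideal.map_mul, h.map_omega] at hab
    calc Ideal.span {ω ^ k} * (Ideal.span {a} * J.map σ)
        = Ideal.span {a} * (Ideal.span {ω ^ k} * J.map σ) := by ring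
      _ = Ideal.span {ω ^ k} * (Ideal.span {b} * J) := by rw [hab]; ring
  obtain ⟨m, a', ha', haa'⟩ : ∃ (m : ℕ) (a' : R'), ¬ ω ∣ a' ∧ a = ω ^ m * a' := by
    obtain ⟨c, hc, hc'⟩ :=
      (FiniteMultiplicity.of_not_isUnit hωp.not_isUnit ha).exists_eq_pow_mul_and_not_dvd
    exact ⟨_, c, hc', hc⟩
  obtain ⟨n, b', hb', hbb'⟩ : ∃ (n : ℕ) (b' : R'), ¬ ω ∣ b' ∧ b = ω ^ n * b' := by
    obtain ⟨c, hc, hc'⟩ :=
      (FiniteMultiplicity.of_not_isUnit hωp.not_isUnit hb).exists_eq_pow_mul_and_not_dvd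
    exact ⟨_, c, hc', hc⟩
  have hX := not_le_mul hωp ha' (h.not_le_sig hJ)
  have hY := not_le_mul hωp hb' hJ
  have hab2 : Ideal.span {a'} * J.map σ = Ideal.span {b'} * J := by
    rw [haa', hbb', ← Ideal.span_singleton_mul_span_singleton,
      ← Ideal.span_singleton_mul_span_singleton, mul_assoc, mul_assoc] at hab1
    rcases le_total m n with h1 | h1
    · exact cancel_aux hωp hX h1 hab1
    · exact (cancel_aux hωp hY h1 hab1.symm).symm
  have hJp := h.ambiguous_aux hp H hJl hJ ha' hab2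
  rw [hIJ]
  exact mul_principal hJp

/-- the action of an automorphism on the class group -/
theorem exists_clMap {A : Type} [CommRing A] [IsDedekindDomain A] (e : A ≃+* A)
    (he : ∀ I : Ideal A, I ∈ nonZeroDivisors (Ideal A) → I.map e ∈ nonZeroDivisors (Ideal A)) :
    ∃ s : ClassGroup A →* ClassGroup A, ∀ (I : Ideal A) (hI : I ∈ nonZeroDivisors (Ideal A)),
      s (ClassGroup.mk0 ⟨I, hI⟩) = ClassGroup.mk0 ⟨I.map e, he I hI⟩ := by
  classical
  let r : ClassGroup A → nonZeroDivisors (Ideal A) := fun c => (ClassGroup.mk0_surjective c).choose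
  have hr : ∀ c, ClassGroup.mk0 (r c) = c := fun c => (ClassGroup.mk0_surjective c).choose_spec
  let g : nonZeroDivisors (Ideal A) → ClassGroup A := fun I => ClassGroup.mk0 ⟨I.1.map e, he I.1 I.2⟩
  have hg : ∀ I J : nonZeroDivisors (Ideal A), ClassGroup.mk0 I = ClassGroup.mk0 J → g I = g J := by
    intro I J h
    rw [ClassGroup.mk0_eq_mk0_iff] at h
    obtain ⟨x, y, hx, hy, hxy⟩ := h
    change ClassGroup.mk0 _ = ClassGroup.mk0 _
    rw [ClassGroup.mk0_eq_mk0_iff]
    refine ⟨e x, e y, ?_, ?_, ?_⟩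
    · rwa [Ne, map_eq_zero_iff e e.injective]
    · rwa [Ne, map_eq_zero_iff e e.injective]
    · have h1 := congrArg (Ideal.map e) hxy
      rw [Ideal.map_mul, Ideal.map_mul, Ideal.map_span, Ideal.map_span, Set.image_singleton,
        Set.image_singleton] at h1
      exact h1
  have hgm : ∀ I J : nonZeroDivisors (Ideal A), g (I * J) = g I * g J := by
    intro I J
    change ClassGroup.mk0 _ = ClassGroup.mk0 _ * ClassGroup.mk0 _
    rw [← map_mul]
    congr 1
    apply Subtype.ext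
    change (I.1 * J.1).map e = I.1.map e * J.1.map e
    rw [Ideal.map_mul]
  refine ⟨MonoidHom.mk' (fun c => g (r c)) ?_, ?_⟩
  · intro c d
    rw [← hgm]
    apply hg
    rw [map_mul, hr, hr, hr]
  · intro I hI
    exact hg (r (ClassGroup.mk0 ⟨I, hI⟩)) ⟨I, hI⟩ (hr (ClassGroup.mk0 ⟨I, hI⟩))

theorem Kum.powP [IsDedekindDomain R] [IsDedekindDomain R'] (h : Kum l ζ p ω σ)
    (hp : Prime p) (H : Hyp F R R' l p) : PowP l R' := by
  intro I hI
  by_cases hI0 : I = ⊥
  · rw [hI0]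
    exact bot_isPrincipal
  have hinj : ∀ J : Ideal R', J ∈ nonZeroDivisors (Ideal R') →
      J.map σ.toRingEquiv ∈ nonZeroDivisors (Ideal R') := by
    intro J hJ
    rw [mem_nonZeroDivisors_iff_ne_zero] at hJ ⊢
    exact mp_ne_bot σ hJ 1
  obtain ⟨s, hs⟩ := exists_clMap σ.toRingEquiv hinj
  have hsi : ∀ (j : ℕ) (J : Ideal R') (hJ : J ∈ nonZeroDivisors (Ideal R')),
      ∃ hJ' : (mp σ)^[j] J ∈ nonZeroDivisors (Ideal R'),
        s^[j] (ClassGroup.mk0 ⟨J, hJ⟩) = ClassGroup.mk0 ⟨(mp σ)^[j] J, hJ'⟩ := by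
    intro j J hJ
    induction j with
    | zero => exact ⟨hJ, rfl⟩
    | succ j ih =>
      obtain ⟨hJ', hj⟩ := ih
      have h1 : (mp σ)^[j + 1] J = ((mp σ)^[j] J).map σ.toRingEquiv := by
        rw [Function.iterate_succ_apply']
        rfl
      rw [h1]
      exact ⟨hinj _ hJ', by rw [Function.iterate_succ_apply', hj, hs]⟩
  have hsl : ∀ c : ClassGroup R', s^[l] c = c := by
    intro c
    obtain ⟨⟨J, hJ⟩, rfl⟩ := ClassGroup.mk0_surjective c
    obtain ⟨hJ', hj⟩ := hsi l J hJ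
    rw [hj]
    congr 1
    apply Subtype.ext
    exact h.mp_l J
  have hfix := fix_mul h.prime s hsl (fun c hc hsc => by
    obtain ⟨⟨J, hJ⟩, rfl⟩ := ClassGroup.mk0_surjective c
    rw [hs, ClassGroup.mk0_eq_mk0_iff] at hsc
    obtain ⟨a, b, ha, hb, hab⟩ := hsc
    have hJ0 : J ≠ ⊥ := mem_nonZeroDivisors_iff_ne_zero.1 hJ
    rw [← map_pow] at hc
    have hJl : (J ^ l).IsPrincipal := by
      have h1 : (⟨J, hJ⟩ : nonZeroDivisors (Ideal R')) ^ l =
          ⟨J ^ l, pow_mem hJ l⟩ := rfl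
      rw [h1, ClassGroup.mk0_eq_one_iff] at hc
      exact hc
    rw [ClassGroup.mk0_eq_one_iff]
    exact h.ambiguous hp H hJ0 hJl ha hb hab)
  have hI1 : I ∈ nonZeroDivisors (Ideal R') := mem_nonZeroDivisors_iff_ne_zero.2 hI0
  have h1 := hfix (ClassGroup.mk0 ⟨I, hI1⟩) (by
    rw [← map_pow]
    have h1 : (⟨I, hI1⟩ : nonZeroDivisors (Ideal R')) ^ l = ⟨I ^ l, pow_mem hI1 l⟩ := rfl
    rw [h1, ClassGroup.mk0_eq_one_iff]
    exact hI)
  rwa [ClassGroup.mk0_eq_one_iff] at h1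

end Pool.Agent.H28.KL
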