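import Pool.Agent.H28.KL.Kum

/-!
# A Kummer extension is a Dedekind domain
-/

set_option autoImplicit false

namespace Pool.Agent.H28.KL

open Finset

theorem dvd_of_integral {R L' : Type} [CommRing R] [IsDomain R] [IsIntegrallyClosed R] [Field L']
    [Algebra R L'] (hinj : Function.Injective (algebraMap R L')) {a b : R} (hb : b ≠ 0) {x : L'}
    (hx : IsIntegral R x) (h : algebraMap R L' a = algebraMap R L' b * x) : b ∣ a := by
  have : FaithfulSMul R L' := (faithfulSMul_iff_algebraMap_injective _ _).2 hinj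
  let _ := FractionRing.liftAlgebra R L'
  have := FractionRing.isScalarTower_liftAlgebra R L'
  set q : FractionRing R := algebraMap R _ a / algebraMap R _ b with hq
  have hbL : algebraMap R L' b ≠ 0 := by
    rw [Ne, map_eq_zero_iff _ hinj]
    exact hb
  have hbK : algebraMap R (FractionRing R) b ≠ 0 := by
    rw [Ne, IsFractionRing.to_map_eq_zero_iff]
    exact hb
  have h1 : algebraMap (FractionRing R) L' q = x := by
    rw [hq, map_div₀, ← IsScalarTower.algebraMap_apply, ← IsScalarTower.algebraMap_apply, h,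
      mul_div_cancel_left₀ _ hbL]
  have h2 : IsIntegral R q := by
    rw [← h1] at hx
    exact (isIntegral_algebraMap_iff (algebraMap (FractionRing R) L').injective).1 hx
  obtain ⟨c, hc⟩ := IsIntegrallyClosed.isIntegral_iff.1 h2
  refine ⟨c, ?_⟩
  apply IsFractionRing.injective R (FractionRing R)
  rw [map_mul, hc, hq, mul_div_cancel₀ _ hbK]

theorem aux_field {L : Type} [Field L] {A B C : L} (hB : B ≠ 0) : B * C * (A / B) = A * C := by
  field_simp

variable {F R R' : Type} [Field F] [CommRing R] [Algebra F R] [CommRing R'] [Algebra F R']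
    [Algebra R R'] [IsScalarTower F R R'] {l : ℕ} {ζ : F} {p : R} {ω : R'} {σ : R' ≃ₐ[R] R'}

theorem Kum.finite (h : Kum l ζ p ω σ) : Module.Finite R R' := by
  classical
  refine ⟨⟨(range l).image (fun i => ω ^ i), ?_⟩⟩
  rw [eq_top_iff]
  intro z _
  obtain ⟨a, rfl⟩ := h.span z
  refine Submodule.sum_mem _ fun i hi => ?_
  rw [← Algebra.smul_def]
  refine Submodule.smul_mem _ _ (Submodule.subset_span ?_)
  exact mem_coe.2 (mem_image_of_mem _ hi)

/-- the norm, as an element of `R'` -/
def Nm (l : ℕ) (σ : R' ≃ₐ[R] R') (z : R') : R' := ∏ j ∈ range l, σ^[j] z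

theorem iter_mul (σ : R' ≃ₐ[R] R') (z w : R') (j : ℕ) : σ^[j] (z * w) = σ^[j] z * σ^[j] w := by
  induction j with
  | zero => rfl
  | succ j ih => simp only [Function.iterate_succ_apply', ih, map_mul]

theorem Nm_mul (l : ℕ) (σ : R' ≃ₐ[R] R') (z w : R') : Nm l σ (z * w) = Nm l σ z * Nm l σ w := by
  unfold Nm
  rw [← prod_mul_distrib]
  exact prod_congr rfl fun j _ => iter_mul σ z w j

theorem Kum.sig_Nm [IsDomain R] (h : Kum l ζ p ω σ) (z : R') : σ (Nm l σ z) = Nm l σ z := by
  unfold Nm
  rw [map_prod]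
  have hl := h.prime.pos
  have h1 : ∏ j ∈ range l, σ (σ^[j] z) = ∏ j ∈ range l, σ^[j + 1] z := by
    refine prod_congr rfl fun j _ => ?_
    rw [Function.iterate_succ_apply']
  rw [h1]
  obtain ⟨m, rfl⟩ := Nat.exists_eq_succ_of_ne_zero hl.ne'
  rw [Nat.succ_eq_add_one, prod_range_succ, prod_range_succ' _ m]
  congr 1
  rw [Function.iterate_zero, id]
  exact h.sig_pow z

theorem Kum.Nm_eq [IsDomain R] (h : Kum l ζ p ω σ) (z : R') :
    Nm l σ z = algebraMap R R' (h.co (Nm l σ z) 0) := h.fixed (h.sig_Nm z)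

theorem Kum.dvd_Nm [IsDomain R] (h : Kum l ζ p ω σ) (z : R') : z ∣ Nm l σ z := by
  have h1 : σ^[0] z = z := rfl
  conv_lhs => rw [← h1]
  exact dvd_prod_of_mem _ (mem_range.2 h.prime.pos)

theorem iter_ne_zero (σ : R' ≃ₐ[R] R') {z : R'} (hz : z ≠ 0) (j : ℕ) : σ^[j] z ≠ 0 := by
  induction j with
  | zero => exact hz
  | succ j ih =>
    rw [Function.iterate_succ_apply', Ne, map_eq_zero_iff σ σ.injective]
    exact ih

theorem Nm_ne_zero [IsDomain R'] (l : ℕ) (σ : R' ≃ₐ[R] R') {z : R'} (hz : z ≠ 0) :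
    Nm l σ z ≠ 0 := by
  unfold Nm
  rw [prod_ne_zero_iff]
  intro j _
  exact iter_ne_zero σ hz j

theorem Kum.integrallyClosed [IsDedekindDomain R] [IsDomain R'] (h : Kum l ζ p ω σ)
    (hp : Prime p) : IsIntegrallyClosed R' := by
  have := h.finite
  have hlF := h.lF
  set L' := FractionRing R'
  have hinj : Function.Injective (algebraMap R L') := by
    rw [IsScalarTower.algebraMap_eq R R' L']
    exact (IsFractionRing.injective R' L').comp h.inj
  have hg : Function.Injective ((IsScalarTower.toAlgHom R R' L').comp (σ : R' →ₐ[R] R')) :=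
    (IsFractionRing.injective R' L').comp σ.injective
  let s : L' →ₐ[R] L' := IsFractionRing.liftAlgHom hg
  have hs : ∀ z : R', s (algebraMap R' L' z) = algebraMap R' L' (σ z) := fun z =>
    IsFractionRing.lift_algebraMap hg z
  rw [isIntegrallyClosed_iff L']
  intro x hx
  have hxR : IsIntegral R x := isIntegral_trans x hx
  -- write `x = y / r`
  obtain ⟨y, r, hr, hxy⟩ : ∃ (y : R') (r : R), r ≠ 0 ∧
      algebraMap R L' r * x = algebraMap R' L' y := by
    obtain ⟨a, b, hb, hab⟩ := IsFractionRing.div_surjective (A := R') x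
    have hb0 : b ≠ 0 := nonZeroDivisors.ne_zero hb
    obtain ⟨c, hc⟩ := h.dvd_Nm b
    refine ⟨a * c, h.co (Nm l σ b) 0, ?_, ?_⟩
    · intro h0
      have h1 := h.Nm_eq b
      rw [h0, map_zero] at h1
      exact Nm_ne_zero l σ hb0 h1
    · rw [IsScalarTower.algebraMap_apply R R' L', ← h.Nm_eq, hc, ← hab, map_mul, map_mul]
      have hbL : algebraMap R' L' b ≠ 0 := by
        rw [Ne, IsFractionRing.to_map_eq_zero_iff]
        exact hb0
      exact aux_field hbL
  have hrL : algebraMap R L' r ≠ 0 := by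
    rw [Ne, map_eq_zero_iff _ hinj]
    exact hr
  -- the components
  have hcomp : ∀ k < l, r ∣ h.co y k := by
    intro k hk
    -- the conjugates
    have hconj : ∀ j : ℕ, IsIntegral R (s^[j] x) ∧
        algebraMap R L' r * s^[j] x = algebraMap R' L' (σ^[j] y) := by
      intro j
      induction j with
      | zero => exact ⟨hxR, hxy⟩
      | succ j ih =>
        refine ⟨?_, ?_⟩
        · rw [Function.iterate_succ_apply']
          exact ih.1.map s
        · rw [Function.iterate_succ_apply', Function.iterate_succ_apply', ← hs, ← ih.2, map_mul,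
            s.commutes]
    have hw : ∃ w : L', IsIntegral R w ∧ algebraMap R L' r * w =
        algebraMap R' L' (algebraMap R R' (h.co y k) * ω ^ k) := by
      refine ⟨algebraMap R L' (algebraMap F R (l : F)⁻¹) * ∑ j ∈ range l,
        algebraMap R L' (algebraMap F R ((ζ⁻¹) ^ (k * j))) * s^[j] x, ?_, ?_⟩
      · refine isIntegral_algebraMap.mul (IsIntegral.sum _ fun j _ => ?_)
        exact isIntegral_algebraMap.mul (hconj j).1
      · have h1 : ∀ j ∈ range l, algebraMap R L' r *
            (algebraMap R L' (algebraMap F R ((ζ⁻¹) ^ (k * j))) * s^[j] x) =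
            algebraMap R' L' ((ζ⁻¹) ^ (k * j) • σ^[j] y) := by
          intro j _
          rw [mul_left_comm, (hconj j).2, Algebra.smul_def, map_mul,
            IsScalarTower.algebraMap_apply F R R', ← IsScalarTower.algebraMap_apply R R' L']
        rw [mul_left_comm, mul_sum, sum_congr rfl h1, ← map_sum]
        have h2 := pr_sum (tau F σ) h.prim h.prime
          (fun i => algebraMap R R' (h.co y i) * ω ^ i) (fun i => h.sig_mono (h.co y i) i) hk
        rw [← h.eq_sum y] at h2
        have h3 : ∑ j ∈ range l, (ζ⁻¹) ^ (k * j) • σ^[j] y =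
            (l : F) • (algebraMap R R' (h.co y k) * ω ^ k) := h2
        rw [h3, IsScalarTower.algebraMap_apply R R' L', ← map_mul,
          ← IsScalarTower.algebraMap_apply F R R', ← Algebra.smul_def, smul_smul,
          inv_mul_cancel₀ hlF, one_smul]
    obtain ⟨w, hw, hrw⟩ := hw
    have h1 : algebraMap R L' (h.co y k ^ l * p ^ k) = algebraMap R L' (r ^ l) * w ^ l := by
      rw [map_pow, ← mul_pow, hrw, ← map_pow, mul_pow, ← pow_mul, mul_comm k l, pow_mul, h.pow,
        ← map_pow, ← map_pow, ← map_mul, ← IsScalarTower.algebraMap_apply]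
    have h2 : r ^ l ∣ h.co y k ^ l * p ^ k :=
      dvd_of_integral hinj (pow_ne_zero l hr) (hw.pow l) h1
    obtain ⟨t, ht⟩ := h2
    have h3 : r ^ l ∣ (h.co y k * p) ^ l := by
      refine ⟨t * p ^ (l - k), ?_⟩
      have h4 : p ^ l = p ^ k * p ^ (l - k) := by rw [← pow_add]; congr 1; omega
      rw [mul_pow, h4, ← mul_assoc, ht, mul_assoc]
    obtain ⟨u, hu⟩ := (IsIntegrallyClosed.pow_dvd_pow_iff h.prime.ne_zero).1 h3
    have h5 : u ^ l = t * p ^ (l - k) := by
      have h4 : p ^ l = p ^ k * p ^ (l - k) := by rw [← pow_add]; congr 1; omega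
      apply mul_left_cancel₀ (pow_ne_zero l hr)
      rw [← mul_pow, ← hu, mul_pow, h4, ← mul_assoc, ht, mul_assoc]
    have h6 : p ∣ u ^ l := by
      rw [h5]
      exact Dvd.dvd.mul_left (dvd_pow_self p (by omega)) _
    obtain ⟨v, hv⟩ := hp.dvd_of_dvd_pow h6
    refine ⟨v, ?_⟩
    apply mul_right_cancel₀ h.ne
    rw [hu, hv]
    ring
  -- conclusion
  choose a ha using fun k : {k // k < l} => hcomp k.1 k.2
  refine ⟨∑ k ∈ range l, (if hk : k < l then algebraMap R R' (a ⟨k, hk⟩) * ω ^ k else 0), ?_⟩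
  apply mul_left_cancel₀ hrL
  rw [hxy, IsScalarTower.algebraMap_apply R R' L', ← map_mul, mul_sum]
  congr 1
  conv_rhs => rw [h.eq_sum y]
  refine sum_congr rfl fun k hk => ?_
  have hk' := mem_range.1 hk
  rw [dif_pos hk', ha ⟨k, hk'⟩, map_mul]
  ring

theorem Kum.dedekind [IsDedekindDomain R] [IsDomain R'] (h : Kum l ζ p ω σ) (hp : Prime p) :
    IsDedekindDomain R' := by
  have := h.integrallyClosed hp
  have := h.finite
  have : IsNoetherianRing R' := IsNoetherianRing.of_finite R R'
  have : Ring.DimensionLEOne R' := by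
    refine ⟨fun {P} hP0 hP => ?_⟩
    apply Ideal.isMaximal_of_isIntegral_of_isMaximal_comap (R := R) P
    obtain ⟨x, hx, hx0⟩ := Submodule.exists_mem_ne_zero_of_ne_bot hP0
    have h3 : Ideal.comap (algebraMap R R') P ≠ ⊥ :=
      Ideal.comap_ne_bot_of_integral_mem hx0 hx (Algebra.IsIntegral.isIntegral x)
    exact (Ideal.comap_isPrime (algebraMap R R') P).isMaximal h3
  have : IsDedekindRing R' := { }
  exact { }

end Pool.Agent.H28.KL
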