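import Pool.Agent.H28.KL.Kum
import Pool.Agent.H28.IQ.Deg

/-!
# The degree function on a Kummer extension
-/

set_option autoImplicit false

namespace Pool.Agent.H28.KL

open Finset
open Pool.Agent.H28.IQ (Deg)

/-- `l m + i n` -/
def vl (l n : ℕ) (x : WithBot ℕ) (i : ℕ) : WithBot ℕ := WithBot.map (fun m => l * m + i * n) x

theorem vl_bot (l n i : ℕ) : vl l n ⊥ i = ⊥ := rfl

theorem vl_coe (l n m i : ℕ) : vl l n (m : WithBot ℕ) i = ((l * m + i * n : ℕ) : WithBot ℕ) := rfl

theorem vl_eq_bot {l n : ℕ} {x : WithBot ℕ} {i : ℕ} : vl l n x i = ⊥ ↔ x = ⊥ := by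
  cases x with
  | bot => simp [vl_bot]
  | coe m =>
    constructor
    · intro h
      exact absurd h WithBot.coe_ne_bot
    · intro h
      exact absurd h WithBot.coe_ne_bot

theorem vl_mono (l n i : ℕ) : Monotone fun x => vl l n x i := by
  intro x y hxy
  cases x with
  | bot => exact bot_le
  | coe a =>
    cases y with
    | bot => exact absurd hxy (by simp)
    | coe b =>
      have h1 : a ≤ b := WithBot.coe_le_coe.1 hxy
      have h2 : l * a + i * n ≤ l * b + i * n := Nat.add_le_add_right (Nat.mul_le_mul_left l h1) _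
      exact WithBot.coe_le_coe.2 h2

theorem vl_add (l n : ℕ) (x y : WithBot ℕ) (i j : ℕ) :
    vl l n (x + y) (i + j) = vl l n x i + vl l n y j := by
  cases x with
  | bot => simp [vl_bot]
  | coe a =>
    cases y with
    | bot => simp [vl_bot]
    | coe b =>
      change ((l * (a + b) + (i + j) * n : ℕ) : WithBot ℕ) =
        ((l * a + i * n : ℕ) : WithBot ℕ) + ((l * b + j * n : ℕ) : WithBot ℕ)
      rw [← Nat.cast_add]
      congr 1
      ring

theorem vl_shift (l n : ℕ) (x : WithBot ℕ) (i : ℕ) :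
    vl l n (x + n) i = vl l n x (i + l) := by
  cases x with
  | bot => simp [vl_bot]
  | coe a =>
    change ((l * (a + n) + i * n : ℕ) : WithBot ℕ) = ((l * a + (i + l) * n : ℕ) : WithBot ℕ)
    congr 1
    ring

theorem vl_inj {l n : ℕ} (hln : Nat.Coprime n l) {x y : WithBot ℕ} {i j : ℕ} (hi : i < l)
    (hj : j < l) (hx : x ≠ ⊥) (h : vl l n x i = vl l n y j) : i = j := by
  cases x with
  | bot => exact absurd rfl hx
  | coe a =>
    cases y with
    | bot => exact absurd h WithBot.coe_ne_bot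
    | coe b =>
      have h1 : l * a + i * n = l * b + j * n := by
        have h2 : ((l * a + i * n : ℕ) : WithBot ℕ) = ((l * b + j * n : ℕ) : WithBot ℕ) := h
        exact_mod_cast h2
      have h2 : i * n ≡ j * n [MOD l] := by
        have h3 : (l * a + i * n) % l = (l * b + j * n) % l := by rw [h1]
        rw [Nat.mul_add_mod, Nat.mul_add_mod] at h3
        exact h3
      have h3 := Nat.ModEq.cancel_right_of_coprime (by rwa [Nat.coprime_comm, Nat.coprime_iff_gcd_eq_one] at hln) h2
      have h4 : i % l = j % l := h3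
      rwa [Nat.mod_eq_of_lt hi, Nat.mod_eq_of_lt hj] at h4

variable {F R R' : Type} [Field F] [CommRing R] [Algebra F R] [CommRing R'] [Algebra F R']
    [Algebra R R'] [IsScalarTower F R R'] {l : ℕ} {ζ : F} {p : R} {ω : R'} {σ : R' ≃ₐ[R] R'}

/-- the degree function on `R'` -/
noncomputable def Kum.dg (h : Kum l ζ p ω σ) (D : R → WithBot ℕ) (n : ℕ) (z : R') : WithBot ℕ :=
  (range l).sup fun i => vl l n (D (h.co z i)) i

section

variable {D : R → WithBot ℕ} {n : ℕ}

theorem Kum.dg_le [IsDomain R] (h : Kum l ζ p ω σ) {z : R'} {x : WithBot ℕ} :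
    h.dg D n z ≤ x ↔ ∀ i < l, vl l n (D (h.co z i)) i ≤ x := by
  unfold Kum.dg
  rw [Finset.sup_le_iff]
  simp only [mem_range]

theorem Kum.le_dg [IsDomain R] (h : Kum l ζ p ω σ) (z : R') {i : ℕ} (hi : i < l) :
    vl l n (D (h.co z i)) i ≤ h.dg D n z :=
  Finset.le_sup (f := fun i => vl l n (D (h.co z i)) i) (mem_range.2 hi)

theorem Kum.dg_eq_bot [IsDomain R] (h : Kum l ζ p ω σ) (hD : Deg F R D) {z : R'} :
    h.dg D n z = ⊥ ↔ z = 0 := by
  rw [eq_bot_iff, h.dg_le]
  constructor
  · intro h1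
    apply h.co_ext
    intro i hi
    rw [h.co_zero hi, ← hD.bot, ← vl_eq_bot (l := l) (n := n) (i := i)]
    exact eq_bot_iff.2 (h1 i hi)
  · rintro rfl i hi
    rw [h.co_zero hi, (hD.bot 0).2 rfl, vl_bot]

theorem Kum.dg_add [IsDomain R] (h : Kum l ζ p ω σ) (hD : Deg F R D) (z w : R') :
    h.dg D n (z + w) ≤ max (h.dg D n z) (h.dg D n w) := by
  rw [h.dg_le]
  intro i hi
  rw [h.co_add z w hi]
  refine (vl_mono l n i (hD.add _ _)).trans ?_
  change vl l n (max (D (h.co z i)) (D (h.co w i))) i ≤ _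
  rw [(vl_mono l n i).map_max]
  exact max_le_max (h.le_dg z hi) (h.le_dg w hi)

theorem Kum.dg_sum [IsDomain R] (h : Kum l ζ p ω σ) (hD : Deg F R D) (s : Finset ℕ) (g : ℕ → R')
    {x : WithBot ℕ} (hx : ∀ i ∈ s, h.dg D n (g i) ≤ x) : h.dg D n (∑ i ∈ s, g i) ≤ x := by
  classical
  induction s using Finset.induction_on with
  | empty =>
    rw [sum_empty, (h.dg_eq_bot hD).2 rfl]
    exact bot_le
  | insert a s ha ih =>
    rw [sum_insert ha]
    refine (h.dg_add hD _ _).trans (max_le (hx a (mem_insert_self a s)) (ih fun i hi => ?_))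
    exact hx i (mem_insert_of_mem hi)

theorem Kum.dg_mono_lt [IsDomain R] (h : Kum l ζ p ω σ) (hD : Deg F R D) (r : R) {i : ℕ}
    (hi : i < l) : h.dg D n (algebraMap R R' r * ω ^ i) = vl l n (D r) i := by
  apply le_antisymm
  · rw [h.dg_le]
    intro k hk
    rw [h.co_mono r hi hk]
    by_cases hki : k = i
    · rw [if_pos hki, hki]
    · rw [if_neg hki, (hD.bot 0).2 rfl, vl_bot]
      exact bot_le
  · have h1 := h.le_dg (D := D) (n := n) (algebraMap R R' r * ω ^ i) hi
    rwa [h.co_mono r hi hi, if_pos rfl] at h1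

theorem Kum.dg_mono [IsDomain R] (h : Kum l ζ p ω σ) (hD : Deg F R D) (hp : D p = n) (i : ℕ) :
    ∀ r : R, h.dg D n (algebraMap R R' r * ω ^ i) = vl l n (D r) i := by
  induction i using Nat.strong_induction_on with
  | _ i ih =>
    intro r
    by_cases hi : i < l
    · exact h.dg_mono_lt hD r hi
    · have hl := h.prime.pos
      have h1 : i = (i - l) + l := by omega
      have h2 : algebraMap R R' r * ω ^ i = algebraMap R R' (r * p) * ω ^ (i - l) := by
        conv_lhs => rw [h1, pow_add, h.pow]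
        rw [map_mul]
        ring
      rw [h2, ih (i - l) (by omega), hD.mul, hp, vl_shift, ← h1]

theorem Kum.dg_neg [IsDomain R] (h : Kum l ζ p ω σ) (hD : Deg F R D) (z : R') :
    h.dg D n (-z) = h.dg D n z := by
  unfold Kum.dg
  apply Finset.sup_congr rfl
  intro i hi
  have h1 : h.co (-z) i = - h.co z i := by
    have h2 := h.co_mul_left (-1) z (mem_range.1 hi)
    rwa [map_neg, map_one, neg_one_mul, neg_one_mul] at h2
  rw [h1, hD.neg]

theorem Kum.dg_add_of_lt [IsDomain R] (h : Kum l ζ p ω σ) (hD : Deg F R D) {z w : R'}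
    (hzw : h.dg D n w < h.dg D n z) : h.dg D n (z + w) = h.dg D n z := by
  apply le_antisymm
  · exact (h.dg_add hD z w).trans (max_le le_rfl hzw.le)
  · have h1 : h.dg D n z ≤ max (h.dg D n (z + w)) (h.dg D n (-w)) := by
      have := h.dg_add (n := n) hD (z + w) (-w)
      rwa [add_neg_cancel_right] at this
    rw [h.dg_neg hD] at h1
    rcases le_max_iff.1 h1 with h2 | h2
    · exact h2
    · exact absurd h2 (not_le.2 hzw)

theorem Kum.dg_mul_le [IsDomain R] (h : Kum l ζ p ω σ) (hD : Deg F R D) (hp : D p = n)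
    (z w : R') : h.dg D n (z * w) ≤ h.dg D n z + h.dg D n w := by
  conv_lhs => rw [h.eq_sum z, h.eq_sum w, sum_mul]
  apply h.dg_sum hD
  intro i hi
  rw [mul_sum]
  apply h.dg_sum hD
  intro j hj
  have h1 : algebraMap R R' (h.co z i) * ω ^ i * (algebraMap R R' (h.co w j) * ω ^ j) =
      algebraMap R R' (h.co z i * h.co w j) * ω ^ (i + j) := by
    rw [map_mul, pow_add]
    ring
  rw [h1, h.dg_mono hD hp, hD.mul, vl_add]
  exact add_le_add (h.le_dg z (mem_range.1 hi)) (h.le_dg w (mem_range.1 hj))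

/-- the leading term -/
theorem Kum.dg_top [IsDomain R] (h : Kum l ζ p ω σ) (hD : Deg F R D) (hln : Nat.Coprime n l)
    {z : R'} (hz : z ≠ 0) : ∃ i < l, ∃ r : R, r ≠ 0 ∧ h.dg D n z = vl l n (D r) i ∧
      h.dg D n (z - algebraMap R R' r * ω ^ i) < h.dg D n z := by
  have hne : (range l).Nonempty := nonempty_range_iff.2 h.prime.ne_zero
  obtain ⟨i, hi, hmax⟩ := Finset.exists_mem_eq_sup (range l) hne
    (fun i => vl l n (D (h.co z i)) i)
  have hi' := mem_range.1 hi
  have hzb : h.dg D n z ≠ ⊥ := by rwa [Ne, h.dg_eq_bot hD]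
  have hmax' : h.dg D n z = vl l n (D (h.co z i)) i := hmax
  have hDb : D (h.co z i) ≠ ⊥ := by
    rw [Ne, ← vl_eq_bot (l := l) (n := n) (i := i), ← hmax']
    exact hzb
  refine ⟨i, hi', h.co z i, ?_, hmax', ?_⟩
  · intro h0
    rw [h0, (hD.bot 0).2 rfl] at hDb
    exact hDb rfl
  · have hpos : ⊥ < h.dg D n z := bot_lt_iff_ne_bot.2 hzb
    unfold Kum.dg at hpos ⊢
    rw [Finset.sup_lt_iff hpos]
    intro k hk
    have hk' := mem_range.1 hk
    have h1 : h.co (z - algebraMap R R' (h.co z i) * ω ^ i) k = if k = i then 0 else h.co z k := by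
      have h2 := h.co_add z (algebraMap R R' (-h.co z i) * ω ^ i) hk'
      rw [h.co_mono _ hi' hk', map_neg, neg_mul, ← sub_eq_add_neg] at h2
      rw [h2]
      by_cases hki : k = i
      · rw [if_pos hki, if_pos hki, hki, add_neg_cancel]
      · rw [if_neg hki, if_neg hki, add_zero]
    rw [h1]
    by_cases hki : k = i
    · rw [if_pos hki, (hD.bot 0).2 rfl, vl_bot]
      exact hpos
    · rw [if_neg hki]
      refine lt_of_le_of_ne (h.le_dg (D := D) (n := n) z hk') ?_
      intro h3
      have h4 : vl l n (D (h.co z i)) i = vl l n (D (h.co z k)) k := by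
        rw [← hmax']
        exact h3.symm
      exact hki (vl_inj hln hi' hk' hDb h4).symm

theorem Kum.dg_mul [IsDomain R] (h : Kum l ζ p ω σ) (hD : Deg F R D) (hp : D p = n)
    (hln : Nat.Coprime n l) (z w : R') : h.dg D n (z * w) = h.dg D n z + h.dg D n w := by
  by_cases hz : z = 0
  · rw [hz, zero_mul, (h.dg_eq_bot hD).2 rfl, WithBot.bot_add]
  by_cases hw : w = 0
  · rw [hw, mul_zero, (h.dg_eq_bot hD).2 rfl, WithBot.add_bot]
  obtain ⟨i, hi, r, hr, hzr, hz'⟩ := h.dg_top hD hln hz
  obtain ⟨j, hj, s, hs, hws, hw'⟩ := h.dg_top hD hln hw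
  have hzb : h.dg D n z ≠ ⊥ := by rwa [Ne, h.dg_eq_bot hD]
  have hwb : h.dg D n w ≠ ⊥ := by rwa [Ne, h.dg_eq_bot hD]
  set mz := algebraMap R R' r * ω ^ i with hmz
  set mw := algebraMap R R' s * ω ^ j with hmw
  have h1 : z * w = mz * mw + (mz * (w - mw) + (z - mz) * w) := by ring
  have h2 : h.dg D n (mz * mw) = h.dg D n z + h.dg D n w := by
    have h3 : mz * mw = algebraMap R R' (r * s) * ω ^ (i + j) := by
      rw [hmz, hmw, map_mul, pow_add]
      ring
    rw [h3, h.dg_mono hD hp, hD.mul, vl_add, hzr, hws]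
  have h3 : h.dg D n mz = h.dg D n z := by rw [hmz, h.dg_mono hD hp, hzr]
  have h4 : h.dg D n (mz * (w - mw)) < h.dg D n z + h.dg D n w := by
    refine lt_of_le_of_lt (h.dg_mul_le hD hp _ _) ?_
    rw [h3]
    exact WithBot.add_lt_add_left hzb hw'
  have h5 : h.dg D n ((z - mz) * w) < h.dg D n z + h.dg D n w := by
    refine lt_of_le_of_lt (h.dg_mul_le hD hp _ _) ?_
    exact WithBot.add_lt_add_right hwb hz'
  rw [h1, h.dg_add_of_lt hD, h2]
  rw [h2]
  exact lt_of_le_of_lt (h.dg_add hD _ _) (max_lt h4 h5)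

/-- the degree function on `R'` has the required properties -/
theorem Kum.deg [IsDomain R] (h : Kum l ζ p ω σ) (hD : Deg F R D) (hp : D p = n)
    (hln : Nat.Coprime n l) : Deg F R' (h.dg D n) where
  mul := h.dg_mul hD hp hln
  add := h.dg_add hD
  bot z := h.dg_eq_bot hD
  zero z := by
    have hl := h.prime.pos
    have hn : n ≠ 0 := by
      rintro rfl
      have h1 : l = 1 := by rwa [Nat.coprime_zero_left] at hln
      exact h.prime.one_lt.ne' h1
    constructor
    · intro h0
      have hco : ∀ i < l, i ≠ 0 → h.co z i = 0 := by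
        intro i hi hi0
        by_contra hne
        have h1 := h.le_dg (D := D) (n := n) z hi
        rw [h0] at h1
        have h2 : D (h.co z i) ≠ ⊥ := by rwa [Ne, hD.bot]
        obtain ⟨m, hm⟩ := WithBot.ne_bot_iff_exists.1 h2
        rw [← hm] at h1
        have h3 : ((l * m + i * n : ℕ) : WithBot ℕ) ≤ ((0 : ℕ) : WithBot ℕ) := h1
        have h4 : l * m + i * n ≤ 0 := by exact_mod_cast h3
        have h5 : 0 < i * n := Nat.mul_pos (Nat.pos_of_ne_zero hi0) (Nat.pos_of_ne_zero hn)
        omega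
      have hz : z = algebraMap R R' (h.co z 0) * ω ^ 0 := by
        apply h.co_ext
        intro i hi
        rw [h.co_mono _ hl hi]
        by_cases hi0 : i = 0
        · rw [if_pos hi0, hi0]
        · rw [if_neg hi0, hco i hi hi0]
      rw [hz, h.dg_mono_lt hD _ hl] at h0
      have h1 : D (h.co z 0) = 0 := by
        cases hx : D (h.co z 0) with
        | bot =>
          rw [hx] at h0
          exact absurd h0 (by simp [vl_bot])
        | coe m =>
          rw [hx] at h0
          have h3 : ((l * m + 0 * n : ℕ) : WithBot ℕ) = ((0 : ℕ) : WithBot ℕ) := h0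
          have h4 : l * m + 0 * n = 0 := by exact_mod_cast h3
          have h5 : m = 0 := by
            rcases Nat.mul_eq_zero.1 (by omega : l * m = 0) with h6 | h6
            · omega
            · exact h6
          rw [h5]
          rfl
      obtain ⟨c, hc, hcz⟩ := (hD.zero _).1 h1
      refine ⟨c, hc, ?_⟩
      rw [hz, hcz, pow_zero, mul_one, ← IsScalarTower.algebraMap_apply]
    · rintro ⟨c, hc, rfl⟩
      have h1 : algebraMap F R' c = algebraMap R R' (algebraMap F R c) * ω ^ 0 := by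
        rw [pow_zero, mul_one, ← IsScalarTower.algebraMap_apply]
      rw [h1, h.dg_mono_lt hD _ hl, (hD.zero _).2 ⟨c, hc, rfl⟩]
      change ((l * 0 + 0 * n : ℕ) : WithBot ℕ) = 0
      simp

theorem Kum.dg_sig [IsDomain R] (h : Kum l ζ p ω σ) (hD : Deg F R D) (z : R') :
    h.dg D n (σ z) = h.dg D n z := by
  unfold Kum.dg
  apply Finset.sup_congr rfl
  intro i hi
  rw [h.co_sig z (mem_range.1 hi), hD.mul, (hD.zero _).2 ⟨ζ ^ i, pow_ne_zero i h.zeta, rfl⟩,
    zero_add]

end

end Pool.Agent.H28.KL
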