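import Pool.Agent.H28.KL.Cl
import Pool.Agent.H28.KL.Dl
import Pool.Agent.H28.IQ.Gd
import Pool.Agent.H28.IQ.Step

/-!
# The step of the tower
-/

set_option autoImplicit false

namespace Pool.Agent.H28.KL

open Finset
open Pool.Agent.H28.IQ (Deg ell ell_mul ell_of_equiv isUnit_const isDedekindDomain_of_equiv
  comap_eq_map ell_poly gd_poly)

/-- the properties which are inherited in the tower -/
structure Gdl (F R : Type) [Field F] [CommRing R] [Algebra F R] (l : ℕ) : Prop where
  ded : IsDedekindDomain R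
  pow : PowP l R
  deg : ∃ D : R → WithBot ℕ, Deg F R D ∧ ∀ z : R, z ≠ 0 → ∃ n : ℕ, ell F z = n ∧ D z = n

theorem root_of_pow {F : Type} [Field F] {c x : F} {n l : ℕ} (hnl : Nat.Coprime n l)
    (hl : l ≠ 0) (h : x ^ l = c ^ n) : ∃ e : F, e ^ l = c := by
  by_cases hc : c = 0
  · exact ⟨0, by rw [zero_pow hl, hc]⟩
  by_cases hx : x = 0
  · rw [hx, zero_pow hl] at h
    exact absurd h.symm (pow_ne_zero n hc)
  have h1 : IsCoprime (n : ℤ) (l : ℤ) := Nat.isCoprime_iff_coprime.2 hnl
  obtain ⟨u, v, huv⟩ := h1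
  refine ⟨x ^ u * c ^ v, ?_⟩
  have h2 : (x ^ u * c ^ v) ^ l = (x ^ l) ^ u * c ^ (v * (l : ℤ)) := by
    rw [mul_pow, ← zpow_natCast (x ^ u), ← zpow_mul, ← zpow_natCast (c ^ v), ← zpow_mul,
      ← zpow_natCast x, ← zpow_mul, mul_comm u]
  rw [h2, h, ← zpow_natCast c, ← zpow_mul, ← zpow_add₀ hc, mul_comm (n : ℤ) u, huv, zpow_one]

variable {F R R' : Type} [Field F] [CommRing R] [Algebra F R] [CommRing R'] [Algebra F R']
    [Algebra R R'] [IsScalarTower F R R'] {l : ℕ} {ζ : F} {p : R} {ω : R'} {σ : R' ≃ₐ[R] R'}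

/-- the coordinates modulo `r` -/
noncomputable def Kum.cor [IsDomain R] (h : Kum l ζ p ω σ) (r : R) :
    R' →ₗ[F] (Fin l → R ⧸ Ideal.span {r}) where
  toFun z i := Ideal.Quotient.mk _ (h.co z i)
  map_add' z w := by
    funext i
    rw [h.co_add z w i.2, map_add]
    rfl
  map_smul' c z := by
    funext i
    have h1 : c • z = algebraMap R R' (algebraMap F R c) * z := by
      rw [← IsScalarTower.algebraMap_apply, Algebra.smul_def]
    rw [h1, h.co_mul_left _ _ i.2, map_mul]
    change _ = c • Ideal.Quotient.mk _ (h.co z i)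
    rw [Algebra.smul_def]
    rfl

theorem Kum.ell_algebraMap [IsDomain R] (h : Kum l ζ p ω σ) (r : R) :
    ell F (algebraMap R R' r) = l * ell F r := by
  have hker : ((Ideal.span {algebraMap R R' r}).restrictScalars F) =
      LinearMap.ker (h.cor r) := by
    ext z
    rw [Submodule.restrictScalars_mem, Ideal.mem_span_singleton, LinearMap.mem_ker]
    constructor
    · rintro ⟨w, rfl⟩
      funext i
      change Ideal.Quotient.mk _ (h.co (algebraMap R R' r * w) i) = 0
      rw [h.co_mul_left _ _ i.2, Ideal.Quotient.eq_zero_iff_mem, Ideal.mem_span_singleton]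
      exact dvd_mul_right _ _
    · intro hz
      rw [h.eq_sum z]
      apply dvd_sum
      intro i hi
      have h1 := congrFun hz ⟨i, mem_range.1 hi⟩
      change Ideal.Quotient.mk _ (h.co z i) = 0 at h1
      rw [Ideal.Quotient.eq_zero_iff_mem, Ideal.mem_span_singleton] at h1
      exact Dvd.dvd.mul_right (map_dvd _ h1) _
  have hsurj : Function.Surjective (h.cor r) := by
    intro v
    choose a ha using fun i => Ideal.Quotient.mk_surjective (v i)
    refine ⟨∑ i ∈ range l, algebraMap R R' (if hi : i < l then a ⟨i, hi⟩ else 0) * ω ^ i, ?_⟩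
    funext i
    change Ideal.Quotient.mk _ (h.co _ i) = _
    rw [h.co_eq (a := fun i => if hi : i < l then a ⟨i, hi⟩ else 0) rfl i.2, dif_pos i.2, ← ha i]
  unfold ell
  have e1 : (R' ⧸ Ideal.span {algebraMap R R' r}) ≃ₗ[F]
      (R' ⧸ (Ideal.span {algebraMap R R' r}).restrictScalars F) :=
    (Submodule.Quotient.restrictScalarsEquiv F _).symm
  have e2 : (R' ⧸ (Ideal.span {algebraMap R R' r}).restrictScalars F) ≃ₗ[F]
      (R' ⧸ LinearMap.ker (h.cor r)) := Submodule.quotEquivOfEq _ _ hker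
  have e3 := LinearMap.quotKerEquivOfSurjective (h.cor r) hsurj
  rw [LinearEquiv.length_eq (e1.trans (e2.trans e3)), Module.length_pi_of_fintype, sum_const,
    card_univ, Fintype.card_fin, nsmul_eq_mul]

theorem ell_sig (z : R') : ell F (σ z) = ell F z :=
  ell_of_equiv (σ.restrictScalars F) z

theorem ell_iter (σ : R' ≃ₐ[R] R') (z : R') (j : ℕ) : ell F (σ^[j] z) = ell F z := by
  induction j with
  | zero => rfl
  | succ j ih => rw [Function.iterate_succ_apply', ell_sig, ih]

theorem ell_prod [IsDomain R'] (σ : R' ≃ₐ[R] R') {z : R'} (hz : z ≠ 0) (m : ℕ) :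
    ell F (∏ j ∈ range m, σ^[j] z) = m * ell F z := by
  induction m with
  | zero =>
    rw [range_zero, prod_empty, Nat.cast_zero, zero_mul]
    unfold ell
    rw [Module.length_eq_zero_iff, Ideal.span_singleton_one]
    exact Ideal.Quotient.subsingleton_iff.2 rfl
  | succ m ih =>
    rw [prod_range_succ, ell_mul _ (iter_ne_zero σ hz m), ih, ell_iter, Nat.cast_succ, add_mul,
      one_mul]

theorem Kum.dg_prod [IsDomain R] (h : Kum l ζ p ω σ) {D : R → WithBot ℕ} {n : ℕ} (hD : Deg F R D)
    (hp : D p = n) (hln : Nat.Coprime n l) {z : R'} {k : ℕ} (hz : h.dg D n z = k) (m : ℕ) :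
    h.dg D n (∏ j ∈ range m, σ^[j] z) = (m * k : ℕ) := by
  have hit : ∀ j : ℕ, h.dg D n (σ^[j] z) = k := by
    intro j
    induction j with
    | zero => exact hz
    | succ j ih => rw [Function.iterate_succ_apply', h.dg_sig hD, ih]
  induction m with
  | zero =>
    rw [range_zero, prod_empty, zero_mul]
    exact (h.deg hD hp hln).one
  | succ m ih =>
    rw [prod_range_succ, h.dg_mul hD hp hln, ih, hit, ← Nat.cast_add]
    congr 1
    ring

theorem Gdl.kum (hR : Gdl F R l) (h : Kum l ζ p ω σ) (hp : Prime p) {n : ℕ}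
    (hn : Nat.Coprime n l) (hpn : ell F p = n) : Gdl F R' l := by
  obtain ⟨hded, hpow, D, hD, hell⟩ := hR
  obtain ⟨n', hn1, hDp⟩ := hell p hp.1
  rw [hpn] at hn1
  have hnn : n = n' := by exact_mod_cast hn1
  rw [← hnn] at hDp
  have hD' := h.deg hD hDp hn
  have hdom : IsDomain R' := hD'.isDomain
  have hdd := h.dedekind hp
  have hl0 : l ≠ 0 := h.prime.ne_zero
  have hres : ∀ c : F, ∀ a m : R, ¬ p ∣ m → p ∣ a ^ l - algebraMap F R c * m ^ l →
      ∃ e : F, e ^ l = c := by
    intro c a m hm ham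
    have hmax : (Ideal.span {p}).IsMaximal := by
      have h1 : (Ideal.span {p}).IsPrime := (Ideal.span_singleton_prime hp.1).2 hp
      refine h1.isMaximal ?_
      rw [Ne, Ideal.span_singleton_eq_bot]
      exact hp.1
    let _ : Field (R ⧸ Ideal.span {p}) := Ideal.Quotient.field _
    have h3 : Module.finrank F (R ⧸ Ideal.span {p}) = n := by
      have h4 : Module.Finite F (R ⧸ Ideal.span {p}) := by
        have h5 : Module.length F (R ⧸ Ideal.span {p}) ≠ ⊤ := by
          change ell F p ≠ ⊤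
          rw [hpn]
          exact ENat.natCast_ne_top n
        rw [Module.length_ne_top_iff] at h5
        have h6 := (isFiniteLength_iff_isNoetherian_isArtinian.1 h5).1
        infer_instance
      have h5 := Module.length_eq_finrank F (R ⧸ Ideal.span {p})
      change ell F p = _ at h5
      rw [hpn] at h5
      exact_mod_cast h5.symm
    have hm0 : (Ideal.Quotient.mk (Ideal.span {p}) m) ≠ 0 := by
      rw [Ne, Ideal.Quotient.eq_zero_iff_mem, Ideal.mem_span_singleton]
      exact hm
    have h7 : algebraMap F (R ⧸ Ideal.span {p}) c = Ideal.Quotient.mk _ (algebraMap F R c) := rfl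
    have h8 : (Ideal.Quotient.mk (Ideal.span {p}) a / Ideal.Quotient.mk _ m) ^ l =
        algebraMap F (R ⧸ Ideal.span {p}) c := by
      rw [div_pow, div_eq_iff (pow_ne_zero l hm0), ← sub_eq_zero, ← map_pow, ← map_pow, h7,
        ← map_mul, ← map_sub, Ideal.Quotient.eq_zero_iff_mem, Ideal.mem_span_singleton]
      exact ham
    have h9 := congrArg (Algebra.norm F) h8
    rw [map_pow, Algebra.norm_algebraMap, h3] at h9
    exact root_of_pow hn hl0 h9
  have H : Hyp F R R' l p := ⟨fun u hu => isUnit_const hD' hu, hres, hpow⟩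
  refine ⟨hdd, h.powP hp H, h.dg D n, hD', ?_⟩
  intro z hz
  -- the norm
  have hN0 := Nm_ne_zero l σ hz
  have hNr := h.Nm_eq z
  set r := h.co (Nm l σ z) 0 with hr
  have hr0 : r ≠ 0 := by
    intro h0
    rw [h0, map_zero] at hNr
    exact hN0 hNr
  obtain ⟨m, hm, hm'⟩ := hell r hr0
  have h1 : (l : ℕ∞) * ell F z = l * m := by
    have h2 := ell_prod (F := F) σ hz l
    change ell F (Nm l σ z) = _ at h2
    rw [← h2, hNr, h.ell_algebraMap, hm]
  have h2 : ell F z ≠ ⊤ := by
    intro h3
    rw [h3, ENat.mul_top (by exact_mod_cast hl0)] at h1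
    exact absurd h1.symm (by exact_mod_cast ENat.natCast_ne_top (l * m))
  obtain ⟨k, hk⟩ := ENat.ne_top_iff_exists.1 h2
  rw [← hk] at h1
  have h3 : k = m := by
    have h4 : l * k = l * m := by exact_mod_cast h1
    exact Nat.eq_of_mul_eq_mul_left h.prime.pos h4
  refine ⟨m, by rw [← hk, h3], ?_⟩
  -- the degree
  have h4 : h.dg D n z ≠ ⊥ := by rwa [Ne, h.dg_eq_bot hD]
  obtain ⟨k', hk'⟩ := WithBot.ne_bot_iff_exists.1 h4
  have h5 := h.dg_prod hD hDp hn hk'.symm l
  change h.dg D n (Nm l σ z) = _ at h5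
  have h6 : h.dg D n (algebraMap R R' r) = (l * m : ℕ) := by
    have h7 := h.dg_mono_lt (n := n) hD r h.prime.pos
    rw [pow_zero, mul_one, hm'] at h7
    rw [h7, vl_coe, zero_mul, add_zero]
  rw [hNr, h6] at h5
  have h8 : m = k' := by
    have h9 : l * m = l * k' := by exact_mod_cast h5
    exact Nat.eq_of_mul_eq_mul_left h.prime.pos h9
  rw [← hk', h8]
  rfl

section

variable {R R' : Type} [CommRing R] [CommRing R']

theorem powP_of_equiv (e : R ≃+* R') (h : PowP l R) : PowP l R' := by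
  intro I hI
  have h1 : (I.comap (e : R →+* R')) ^ l = (I ^ l).comap (e : R →+* R') := by
    rw [comap_eq_map, comap_eq_map, Ideal.map_pow]
  obtain ⟨⟨a, ha⟩⟩ := hI
  change I ^ l = Ideal.span {a} at ha
  obtain ⟨⟨b, hb⟩⟩ := h (I.comap (e : R →+* R')) ⟨⟨e.symm a, by
    change _ = Ideal.span {e.symm a}
    rw [h1, ha, comap_eq_map, Ideal.map_span, Set.image_singleton]
    rfl⟩⟩
  change I.comap (e : R →+* R') = Ideal.span {b} at hb
  refine ⟨⟨e b, ?_⟩⟩
  change I = Ideal.span {e b}
  rw [← Ideal.map_comap_of_surjective (e : R →+* R') e.surjective I, hb, Ideal.map_span,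
    Set.image_singleton]
  rfl

theorem Gdl.of_equiv [Algebra F R] [Algebra F R'] (h : Gdl F R l) (e : R ≃ₐ[F] R') : Gdl F R' l := by
  obtain ⟨hded, hpow, D, hD, hell⟩ := h
  refine ⟨isDedekindDomain_of_equiv e.toRingEquiv hded, powP_of_equiv e.toRingEquiv hpow,
    fun x => D (e.symm x), ?_, ?_⟩
  · exact {
      mul := fun a b => by rw [map_mul, hD.mul]
      add := fun a b => by rw [map_add]; exact hD.add _ _
      bot := fun a => by rw [hD.bot, map_eq_zero_iff e.symm e.symm.injective]
      zero := fun a => by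
        rw [hD.zero]
        constructor
        · rintro ⟨c, hc, hac⟩
          exact ⟨c, hc, by rw [← e.apply_symm_apply a, hac, e.commutes]⟩
        · rintro ⟨c, hc, rfl⟩
          exact ⟨c, hc, e.symm.commutes c⟩ }
  · intro z hz
    have h1 : e.symm z ≠ 0 := by rwa [Ne, map_eq_zero_iff e.symm e.symm.injective]
    obtain ⟨n, hn, hn'⟩ := hell _ h1
    refine ⟨n, ?_, hn'⟩
    rw [← hn, ell_of_equiv e.symm]

end

theorem gdl_poly (F : Type) [Field F] (l : ℕ) : Gdl F (Polynomial F) l := by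
  obtain ⟨hded, -, hdeg⟩ := gd_poly (F := F)
  exact ⟨hded, fun I _ => IsPrincipalIdealRing.principal I, hdeg⟩

end Pool.Agent.H28.KL
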