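import Pool.Agent.H28.KL.Am

/-!
# Hilbert 90 and ambiguous classes
-/

set_option autoImplicit false

namespace Pool.Agent.H28.KL

open Finset

variable {F R R' : Type} [Field F] [CommRing R] [Algebra F R] [CommRing R'] [Algebra F R']
    [Algebra R R'] [IsScalarTower F R R'] {l : ℕ} {ζ : F} {p : R} {ω : R'} {σ : R' ≃ₐ[R] R'}

/-- the summands of the resolvent -/
def tm (l : ℕ) (σ : R' ≃ₐ[R] R') (e a b y : R') (j : ℕ) : R' :=
  e ^ (l - 1 - j) * (∏ i ∈ range j, σ^[i] b) * (∏ i ∈ Ico j l, σ^[i] a) * σ^[j] y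

theorem sig_prod_range (σ : R' ≃ₐ[R] R') (b : R') (j : ℕ) :
    b * σ (∏ i ∈ range j, σ^[i] b) = ∏ i ∈ range (j + 1), σ^[i] b := by
  rw [map_prod, prod_range_succ', mul_comm]
  congr 1
  refine prod_congr rfl fun i _ => ?_
  rw [Function.iterate_succ_apply']

theorem sig_prod_Ico (σ : R' ≃ₐ[R] R') (a : R') {j : ℕ} (hj : j < l) (ha : σ^[l] a = a) :
    σ (∏ i ∈ Ico j l, σ^[i] a) = (∏ i ∈ Ico (j + 1) l, σ^[i] a) * a := by
  rw [map_prod]
  have h1 : ∏ i ∈ Ico j l, σ (σ^[i] a) = ∏ i ∈ Ico (j + 1) (l + 1), σ^[i] a := by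
    rw [← Finset.prod_Ico_add' (fun i => σ^[i] a) j l 1]
    refine prod_congr rfl fun i _ => ?_
    rw [Function.iterate_succ_apply']
  rw [h1, prod_Ico_succ_top (by omega), ha]

theorem Kum.tm_step (h : Kum l ζ p ω σ) {e a b y : R'} (he : σ e = e) {j : ℕ} (hj : j + 1 < l) :
    b * σ (tm l σ e a b y j) = e * a * tm l σ e a b y (j + 1) := by
  unfold tm
  rw [map_mul, map_mul, map_mul, map_pow, he, sig_prod_Ico σ a (by omega) (h.sig_pow a),
    ← sig_prod_range σ b j, Function.iterate_succ_apply']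
  have h1 : e ^ (l - 1 - j) = e * e ^ (l - 1 - (j + 1)) := by
    rw [← pow_succ']
    congr 1
    omega
  rw [h1]
  ring

theorem Kum.tm_last (h : Kum l ζ p ω σ) {e a b y : R'} (he : σ e = e)
    (hN : Nm l σ b = e ^ l * Nm l σ a) :
    b * σ (tm l σ e a b y (l - 1)) = e * a * tm l σ e a b y 0 := by
  have hl := h.prime.pos
  unfold tm
  rw [map_mul, map_mul, map_mul, map_pow, he, sig_prod_Ico σ a (by omega) (h.sig_pow a)]
  have h1 : l - 1 + 1 = l := by omega
  have h2 := sig_prod_range σ b (l - 1)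
  rw [h1] at h2 ⊢
  have h3 : ∏ i ∈ range l, σ^[i] b = e ^ l * Nm l σ a := hN
  rw [h3] at h2
  have h4 : σ (σ^[l - 1] y) = y := by
    have h7 : σ^[l - 1 + 1] y = σ (σ^[l - 1] y) := Function.iterate_succ_apply' _ _ _
    rw [← h7, h1, h.sig_pow]
  have h5 : ∏ i ∈ Ico 0 l, σ^[i] a = Nm l σ a := by
    rw [← range_eq_Ico]
    rfl
  have h6 : e ^ l = e * e ^ (l - 1) := by
    rw [← pow_succ', h1]
  rw [h4, h5, Ico_self, prod_empty, Nat.sub_self, pow_zero, range_zero, prod_empty,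
    Function.iterate_zero, id, Nat.sub_zero, one_mul, one_mul, mul_one]
  rw [h6] at h2
  linear_combination (a * y) * h2

/-- Hilbert 90 -/
theorem Kum.hilbert [IsDomain R] [IsDomain R'] (h : Kum l ζ p ω σ) {e : F} (he : e ≠ 0)
    {a b : R'} (ha : a ≠ 0) (hN : Nm l σ b = algebraMap F R' (e ^ l) * Nm l σ a) :
    ∃ x : R', x ≠ 0 ∧ b * σ x = algebraMap F R' e * a * x := by
  have hl := h.prime.pos
  have hω0 : ω ≠ 0 := by
    intro h0
    have h1 := h.pow
    rw [h0, zero_pow h.prime.ne_zero] at h1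
    exact h.ne (h.inj (by rw [← h1, map_zero]))
  have hse : σ (algebraMap F R' e) = algebraMap F R' e := by
    rw [IsScalarTower.algebraMap_apply F R R', σ.commutes]
  rw [map_pow] at hN
  set E := algebraMap F R' e with hE
  have hE0 : E ≠ 0 := by
    rw [hE, Ne, map_eq_zero]
    exact he
  have hsum : ∀ y : R', b * σ (∑ j ∈ range l, tm l σ E a b y j) =
      E * a * ∑ j ∈ range l, tm l σ E a b y j := by
    intro y
    rw [map_sum, mul_sum, sum_shift' _ hl, h.tm_last hse hN, mul_sum, sum_shift _ hl]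
    congr 1
    refine sum_congr rfl fun j hj => ?_
    rw [h.tm_step hse (by have := mem_range.1 hj; omega)]
  by_contra hcon
  push Not at hcon
  have hz : ∀ y : R', ∑ j ∈ range l, tm l σ E a b y j = 0 := by
    intro y
    by_contra h0
    exact hcon _ h0 (hsum y)
  -- `y = ω ^ k`
  let c : ℕ → R' := fun j => E ^ (l - 1 - j) * (∏ i ∈ range j, σ^[i] b) * (∏ i ∈ Ico j l, σ^[i] a)
  have hc0 : c 0 ≠ 0 := by
    change E ^ (l - 1 - 0) * (∏ i ∈ range 0, σ^[i] b) * (∏ i ∈ Ico 0 l, σ^[i] a) ≠ 0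
    rw [range_zero, prod_empty, mul_one, ← range_eq_Ico]
    exact mul_ne_zero (pow_ne_zero _ hE0) (Nm_ne_zero l σ ha)
  have hk : ∀ k : ℕ, ∑ j ∈ range l, c j * algebraMap F R' (ζ ^ (k * j)) = 0 := by
    intro k
    have h1 := hz (ω ^ k)
    have h2 : ∀ j ∈ range l, tm l σ E a b (ω ^ k) j = (c j * algebraMap F R' (ζ ^ (k * j))) * ω ^ k := by
      intro j _
      have h3 : σ^[j] (ω ^ k) = algebraMap F R' (ζ ^ (k * j)) * ω ^ k := by
        have h4 := h.sig_mono 1 k
        rw [map_one, one_mul] at h4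
        have h5 := iter_smul _ h4 j
        rw [Algebra.smul_def, ← pow_mul] at h5
        exact h5
      change E ^ (l - 1 - j) * (∏ i ∈ range j, σ^[i] b) * (∏ i ∈ Ico j l, σ^[i] a) * σ^[j] (ω ^ k) = _
      rw [h3, ← mul_assoc]
    rw [sum_congr rfl h2, ← sum_mul] at h1
    rcases mul_eq_zero.1 h1 with h3 | h3
    · exact h3
    · exact absurd h3 (pow_ne_zero k hω0)
  have htot : ∑ k ∈ range l, ∑ j ∈ range l, c j * algebraMap F R' (ζ ^ (k * j)) = 0 :=
    sum_eq_zero fun k _ => hk k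
  rw [sum_comm] at htot
  have h1 : ∀ j ∈ range l, ∑ k ∈ range l, c j * algebraMap F R' (ζ ^ (k * j)) =
      if j = 0 then (l : R') * c 0 else 0 := by
    intro j hj
    rw [← mul_sum, ← map_sum]
    have h2 : ∑ k ∈ range l, ζ ^ (k * j) = if j = 0 then (l : F) else 0 := by
      have h3 := root_sum' h.prim h.prime (mem_range.1 hj) hl
      rw [← h3]
      refine sum_congr rfl fun k _ => ?_
      rw [pow_zero, mul_one, ← pow_mul, mul_comm]
    rw [h2]
    by_cases h0 : j = 0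
    · rw [if_pos h0, if_pos h0, h0, map_natCast, mul_comm]
    · rw [if_neg h0, if_neg h0, map_zero, mul_zero]
  rw [sum_congr rfl h1, sum_ite_eq' (range l) 0, if_pos (mem_range.2 hl)] at htot
  rcases mul_eq_zero.1 htot with h2 | h2
  · have h3 : algebraMap F R' (l : F) = 0 := by rw [map_natCast, h2]
    rw [map_eq_zero] at h3
    exact h.lF h3
  · exact hc0 h2

end Pool.Agent.H28.KL
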