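import Mathlib

/-!
# Kummer extensions of rings: eigenprojections and coordinates
-/

set_option autoImplicit false

namespace Pool.Agent.H28.KL

open Finset

section

variable {F : Type} [Field F]

theorem root_sum {l : ℕ} {x : F} (h : x ^ l = 1) (h1 : x ≠ 1) : ∑ j ∈ range l, x ^ j = 0 := by
  have h2 := geom_sum_mul x l
  rw [h, sub_self] at h2
  rcases mul_eq_zero.1 h2 with h3 | h3
  · exact h3
  · exact absurd (sub_eq_zero.1 h3) h1

theorem root_sum' {l : ℕ} {ζ : F} (hζ : IsPrimitiveRoot ζ l) (hl : l.Prime) {i k : ℕ}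
    (hi : i < l) (hk : k < l) :
    ∑ j ∈ range l, (ζ ^ i * (ζ⁻¹) ^ k) ^ j = if i = k then (l : F) else 0 := by
  have hζ0 : ζ ≠ 0 := hζ.ne_zero hl.ne_zero
  by_cases h : i = k
  · rw [if_pos h, h, ← mul_pow, mul_inv_cancel₀ hζ0, one_pow]
    simp
  · rw [if_neg h]
    apply root_sum
    · rw [mul_pow, ← pow_mul, ← pow_mul, mul_comm i, mul_comm k, pow_mul, pow_mul, hζ.pow_eq_one,
        inv_pow, hζ.pow_eq_one, inv_one, one_pow, one_pow, one_mul]
    · intro h1
      apply h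
      apply hζ.pow_inj hi hk
      rw [inv_pow, mul_inv_eq_one₀ (pow_ne_zero k hζ0)] at h1
      exact h1

theorem iter_smul {M : Type} [AddCommGroup M] [Module F M] (τ : M →ₗ[F] M) {c : F} {w : M}
    (h : τ w = c • w) (j : ℕ) : τ^[j] w = c ^ j • w := by
  induction j with
  | zero => rw [Function.iterate_zero, id, pow_zero, one_smul]
  | succ j ih => rw [Function.iterate_succ_apply', ih, map_smul, h, smul_smul, pow_succ]

theorem iter_sum {M : Type} [AddCommGroup M] [Module F M] (τ : M →ₗ[F] M) (s : Finset ℕ)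
    (w : ℕ → M) (j : ℕ) : τ^[j] (∑ i ∈ s, w i) = ∑ i ∈ s, τ^[j] (w i) := by
  induction j with
  | zero => simp
  | succ j ih => simp only [Function.iterate_succ_apply', ih, map_sum]

theorem sum_shift {M : Type} [AddCommMonoid M] (g : ℕ → M) {l : ℕ} (hl : 0 < l) :
    ∑ i ∈ range l, g i = ∑ i ∈ range (l - 1), g (i + 1) + g 0 := by
  obtain ⟨m, rfl⟩ := Nat.exists_eq_succ_of_ne_zero hl.ne'
  rw [Nat.succ_eq_add_one, Nat.add_sub_cancel, sum_range_succ']

theorem sum_shift' {M : Type} [AddCommMonoid M] (g : ℕ → M) {l : ℕ} (hl : 0 < l) :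
    ∑ i ∈ range l, g i = ∑ i ∈ range (l - 1), g i + g (l - 1) := by
  obtain ⟨m, rfl⟩ := Nat.exists_eq_succ_of_ne_zero hl.ne'
  rw [Nat.succ_eq_add_one, Nat.add_sub_cancel, sum_range_succ]

/-- the eigenprojection -/
theorem pr_sum {M : Type} [AddCommGroup M] [Module F M] (τ : M →ₗ[F] M) {l : ℕ} {ζ : F}
    (hζ : IsPrimitiveRoot ζ l) (hl : l.Prime) (w : ℕ → M) (hw : ∀ i, τ (w i) = ζ ^ i • w i)
    {k : ℕ} (hk : k < l) :
    ∑ j ∈ range l, (ζ⁻¹) ^ (k * j) • τ^[j] (∑ i ∈ range l, w i) = (l : F) • w k := by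
  have h1 : ∀ j ∈ range l, (ζ⁻¹) ^ (k * j) • τ^[j] (∑ i ∈ range l, w i) =
      ∑ i ∈ range l, (ζ ^ i * (ζ⁻¹) ^ k) ^ j • w i := by
    intro j _
    rw [iter_sum, smul_sum]
    refine sum_congr rfl fun i _ => ?_
    rw [iter_smul τ (hw i), smul_smul, mul_pow, ← pow_mul, ← pow_mul, mul_comm]
  rw [sum_congr rfl h1, sum_comm]
  have h2 : ∀ i ∈ range l, ∑ j ∈ range l, (ζ ^ i * (ζ⁻¹) ^ k) ^ j • w i =
      if i = k then (l : F) • w k else 0 := by
    intro i hi
    rw [← sum_smul, root_sum' hζ hl (mem_range.1 hi) hk]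
    by_cases h : i = k
    · rw [if_pos h, if_pos h, h]
    · rw [if_neg h, if_neg h, zero_smul]
  rw [sum_congr rfl h2, sum_ite_eq' (range l) k, if_pos (mem_range.2 hk)]

end

/-- `R'` is obtained from `R` by adjoining an `l`-th root `ω` of `p`; `ζ` is a primitive `l`-th
root of unity in the field `F` of constants. -/
structure Kum {F R R' : Type} [Field F] [CommRing R] [Algebra F R] [CommRing R'] [Algebra F R']
    [Algebra R R'] [IsScalarTower F R R'] (l : ℕ) (ζ : F) (p : R) (ω : R') (σ : R' ≃ₐ[R] R') :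
    Prop where
  prime : l.Prime
  prim : IsPrimitiveRoot ζ l
  inj : Function.Injective (algebraMap R R')
  ne : p ≠ 0
  pow : ω ^ l = algebraMap R R' p
  sig : σ ω = algebraMap F R' ζ * ω
  span : ∀ z : R', ∃ a : ℕ → R, z = ∑ i ∈ range l, algebraMap R R' (a i) * ω ^ i

variable {F R R' : Type} [Field F] [CommRing R] [Algebra F R] [CommRing R'] [Algebra F R']
    [Algebra R R'] [IsScalarTower F R R'] {l : ℕ} {ζ : F} {p : R} {ω : R'} {σ : R' ≃ₐ[R] R'}

/-- `σ` as an `F`-linear map -/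
def tau (F : Type) {R R' : Type} [Field F] [CommRing R] [Algebra F R] [CommRing R'] [Algebra F R']
    [Algebra R R'] [IsScalarTower F R R'] (σ : R' ≃ₐ[R] R') : R' →ₗ[F] R' where
  toFun := σ
  map_add' := map_add σ
  map_smul' c z := by
    rw [Algebra.smul_def, Algebra.smul_def, map_mul, IsScalarTower.algebraMap_apply F R R',
      σ.commutes, IsScalarTower.algebraMap_apply F R R']
    rfl

theorem tau_apply (z : R') : tau F σ z = σ z := rfl

theorem Kum.lF (h : Kum l ζ p ω σ) : (l : F) ≠ 0 := by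
  have : NeZero l := ⟨h.prime.ne_zero⟩
  exact h.prim.neZero'.out

theorem Kum.zeta (h : Kum l ζ p ω σ) : ζ ≠ 0 := h.prim.ne_zero h.prime.ne_zero

theorem Kum.sig_mono (h : Kum l ζ p ω σ) (a : R) (i : ℕ) :
    tau F σ (algebraMap R R' a * ω ^ i) = ζ ^ i • (algebraMap R R' a * ω ^ i) := by
  rw [tau_apply, map_mul, σ.commutes, map_pow, h.sig, mul_pow, Algebra.smul_def, map_pow]
  ring

theorem Kum.mono_eq_zero [IsDomain R] (h : Kum l ζ p ω σ) {a : R} {i : ℕ} (hi : i < l)
    (h0 : algebraMap R R' a * ω ^ i = 0) : a = 0 := by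
  have h1 : algebraMap R R' (a * p) = 0 := by
    rw [map_mul, ← h.pow]
    have h2 : ω ^ l = ω ^ i * ω ^ (l - i) := by rw [← pow_add]; congr 1; omega
    rw [h2, ← mul_assoc, h0, zero_mul]
  have h2 : a * p = 0 := h.inj (by rw [h1, map_zero])
  rcases mul_eq_zero.1 h2 with h3 | h3
  · exact h3
  · exact absurd h3 h.ne

theorem Kum.unique [IsDomain R] (h : Kum l ζ p ω σ) {a b : ℕ → R}
    (hab : ∑ i ∈ range l, algebraMap R R' (a i) * ω ^ i =
      ∑ i ∈ range l, algebraMap R R' (b i) * ω ^ i) {k : ℕ} (hk : k < l) : a k = b k := by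
  have h1 := pr_sum (tau F σ) h.prim h.prime (fun i => algebraMap R R' (a i) * ω ^ i)
    (fun i => h.sig_mono (a i) i) hk
  have h2 := pr_sum (tau F σ) h.prim h.prime (fun i => algebraMap R R' (b i) * ω ^ i)
    (fun i => h.sig_mono (b i) i) hk
  rw [hab] at h1
  have h3 : algebraMap R R' (a k) * ω ^ k = algebraMap R R' (b k) * ω ^ k :=
    smul_right_injective R' h.lF (h1.symm.trans h2)
  have h4 : algebraMap R R' (a k - b k) * ω ^ k = 0 := by
    rw [map_sub, sub_mul, h3, sub_self]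
  exact sub_eq_zero.1 (h.mono_eq_zero hk h4)

open Classical in
/-- the coordinates -/
noncomputable def Kum.co (h : Kum l ζ p ω σ) (z : R') (i : ℕ) : R :=
  if i < l then (h.span z).choose i else 0

theorem Kum.co_ge (h : Kum l ζ p ω σ) (z : R') {i : ℕ} (hi : l ≤ i) : h.co z i = 0 := by
  unfold Kum.co
  rw [if_neg (not_lt.2 hi)]

theorem Kum.eq_sum (h : Kum l ζ p ω σ) (z : R') :
    z = ∑ i ∈ range l, algebraMap R R' (h.co z i) * ω ^ i := by
  have h1 := (h.span z).choose_spec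
  conv_lhs => rw [h1]
  refine sum_congr rfl fun i hi => ?_
  unfold Kum.co
  rw [if_pos (mem_range.1 hi)]

theorem Kum.co_eq [IsDomain R] (h : Kum l ζ p ω σ) {z : R'} {a : ℕ → R}
    (hz : z = ∑ i ∈ range l, algebraMap R R' (a i) * ω ^ i) {k : ℕ} (hk : k < l) :
    h.co z k = a k := by
  apply h.unique ((h.eq_sum z).symm.trans hz) hk

theorem Kum.co_ext (h : Kum l ζ p ω σ) {z w : R'} (hzw : ∀ i < l, h.co z i = h.co w i) :
    z = w := by
  rw [h.eq_sum z, h.eq_sum w]
  refine sum_congr rfl fun i hi => ?_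
  rw [hzw i (mem_range.1 hi)]

theorem Kum.co_add [IsDomain R] (h : Kum l ζ p ω σ) (z w : R') {k : ℕ} (hk : k < l) :
    h.co (z + w) k = h.co z k + h.co w k := by
  refine h.co_eq (a := fun i => h.co z i + h.co w i) ?_ hk
  conv_lhs => rw [h.eq_sum z, h.eq_sum w, ← sum_add_distrib]
  refine sum_congr rfl fun i _ => ?_
  rw [map_add, add_mul]

theorem Kum.co_mul_left [IsDomain R] (h : Kum l ζ p ω σ) (r : R) (z : R') {k : ℕ} (hk : k < l) :
    h.co (algebraMap R R' r * z) k = r * h.co z k := by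
  refine h.co_eq (a := fun i => r * h.co z i) ?_ hk
  conv_lhs => rw [h.eq_sum z, mul_sum]
  refine sum_congr rfl fun i _ => ?_
  rw [map_mul, mul_assoc]

theorem Kum.co_zero [IsDomain R] (h : Kum l ζ p ω σ) {k : ℕ} (hk : k < l) : h.co 0 k = 0 := by
  refine h.co_eq (a := fun _ => 0) ?_ hk
  simp

theorem Kum.co_mono [IsDomain R] (h : Kum l ζ p ω σ) (r : R) {i k : ℕ} (hi : i < l) (hk : k < l) :
    h.co (algebraMap R R' r * ω ^ i) k = if k = i then r else 0 := by
  refine h.co_eq (a := fun j => if j = i then r else 0) ?_ hk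
  rw [sum_eq_single i]
  · rw [if_pos rfl]
  · intro j _ hj
    rw [if_neg hj, map_zero, zero_mul]
  · intro hi'
    exact absurd (mem_range.2 hi) hi'

theorem Kum.co_algebraMap [IsDomain R] (h : Kum l ζ p ω σ) (r : R) {k : ℕ} (hk : k < l) :
    h.co (algebraMap R R' r) k = if k = 0 then r else 0 := by
  have h1 := h.co_mono r h.prime.pos hk
  rwa [pow_zero, mul_one] at h1

theorem Kum.co_sig [IsDomain R] (h : Kum l ζ p ω σ) (z : R') {k : ℕ} (hk : k < l) :
    h.co (σ z) k = algebraMap F R (ζ ^ k) * h.co z k := by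
  refine h.co_eq (a := fun i => algebraMap F R (ζ ^ i) * h.co z i) ?_ hk
  conv_lhs => rw [h.eq_sum z, map_sum]
  refine sum_congr rfl fun i _ => ?_
  have h1 := h.sig_mono (h.co z i) i
  rw [tau_apply, Algebra.smul_def] at h1
  rw [h1, map_mul, ← IsScalarTower.algebraMap_apply, mul_assoc]

/-- multiplication by `ω` -/
theorem Kum.co_omega_zero [IsDomain R] (h : Kum l ζ p ω σ) (z : R') :
    h.co (ω * z) 0 = p * h.co z (l - 1) := by
  have hl := h.prime.pos
  refine h.co_eq (a := fun i => if i = 0 then p * h.co z (l - 1) else h.co z (i - 1)) ?_ hl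
  conv_lhs => rw [h.eq_sum z, mul_sum]
  rw [sum_shift' _ hl, sum_shift _ hl]
  congr 1
  · refine sum_congr rfl fun i _ => ?_
    rw [if_neg (Nat.succ_ne_zero i), Nat.add_sub_cancel]
    ring
  · rw [if_pos rfl, pow_zero, mul_one, map_mul, ← h.pow]
    have h1 : l = (l - 1) + 1 := by omega
    have h2 : ω ^ l = ω ^ (l - 1) * ω := by
      conv_lhs => rw [h1, pow_succ]
    rw [h2]
    ring

theorem Kum.omega_dvd_iff [IsDomain R] (h : Kum l ζ p ω σ) (z : R') :
    ω ∣ z ↔ p ∣ h.co z 0 := by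
  constructor
  · rintro ⟨w, rfl⟩
    rw [h.co_omega_zero]
    exact dvd_mul_right _ _
  · rintro ⟨r, hr⟩
    rw [h.eq_sum z]
    apply dvd_sum
    intro i _
    rcases Nat.eq_zero_or_pos i with h0 | h0
    · rw [h0, hr, map_mul, ← h.pow]
      refine Dvd.dvd.mul_right (Dvd.dvd.mul_right ?_ _) _
      exact dvd_pow_self ω h.prime.ne_zero
    · exact Dvd.dvd.mul_left (dvd_pow_self ω h0.ne') _

theorem Kum.omega_dvd_algebraMap [IsDomain R] (h : Kum l ζ p ω σ) (r : R) :
    ω ∣ algebraMap R R' r ↔ p ∣ r := by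
  rw [h.omega_dvd_iff, h.co_algebraMap r h.prime.pos, if_pos rfl]

/-- `z ≡ z_0` modulo `ω` -/
theorem Kum.omega_dvd_sub [IsDomain R] (h : Kum l ζ p ω σ) (z : R') :
    ω ∣ z - algebraMap R R' (h.co z 0) := by
  have h2 : z - algebraMap R R' (h.co z 0) =
      ∑ i ∈ range (l - 1), algebraMap R R' (h.co z (i + 1)) * ω ^ (i + 1) := by
    have h3 := h.eq_sum z
    rw [sum_shift _ h.prime.pos, pow_zero, mul_one] at h3
    rw [sub_eq_iff_eq_add]
    exact h3
  rw [h2]
  apply dvd_sum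
  intro i _
  exact Dvd.dvd.mul_left (dvd_pow_self ω (Nat.succ_ne_zero i)) _

theorem Kum.omega_dvd_sig_sub [IsDomain R] (h : Kum l ζ p ω σ) (z : R') : ω ∣ σ z - z := by
  have h1 := h.omega_dvd_sub (σ z)
  have h2 := h.omega_dvd_sub z
  rw [h.co_sig z h.prime.pos, pow_zero, map_one, one_mul] at h1
  have h3 := dvd_sub h1 h2
  rwa [sub_sub_sub_cancel_right] at h3

theorem Kum.sig_pow (h : Kum l ζ p ω σ) (z : R') : σ^[l] z = z := by
  have h1 : ∀ w : R', σ^[l] w = (tau F σ)^[l] w := fun w => rfl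
  rw [h1, h.eq_sum z, iter_sum]
  refine sum_congr rfl fun i _ => ?_
  rw [iter_smul _ (h.sig_mono _ i), ← pow_mul, mul_comm i l, pow_mul, h.prim.pow_eq_one, one_pow,
    one_smul]

/-- an element with `σ z = ζ ^ k z` is a monomial -/
theorem Kum.eigen [IsDomain R] (h : Kum l ζ p ω σ) {z : R'} {k : ℕ} (hk : k < l)
    (hz : σ z = algebraMap F R' (ζ ^ k) * z) : z = algebraMap R R' (h.co z k) * ω ^ k := by
  apply h.co_ext
  intro i hi
  rw [h.co_mono _ hk hi]
  by_cases hik : i = k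
  · rw [if_pos hik, hik]
  · rw [if_neg hik]
    have h1 := h.co_sig z hi
    rw [hz, IsScalarTower.algebraMap_apply F R R', h.co_mul_left _ _ hi] at h1
    have h2 : algebraMap F R (ζ ^ k - ζ ^ i) * h.co z i = 0 := by
      rw [map_sub, sub_mul, h1, sub_self]
    have h3 : ζ ^ k - ζ ^ i ≠ 0 := by
      intro h4
      exact hik (h.prim.pow_inj hi hk (sub_eq_zero.1 h4).symm)
    have h4 : IsUnit (algebraMap F R (ζ ^ k - ζ ^ i)) := (IsUnit.mk0 _ h3).map _
    rcases mul_eq_zero.1 h2 with h5 | h5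
    · rw [h5] at h4
      exact absurd h4 not_isUnit_zero
    · exact h5

theorem Kum.fixed [IsDomain R] (h : Kum l ζ p ω σ) {z : R'} (hz : σ z = z) :
    z = algebraMap R R' (h.co z 0) := by
  have h1 := h.eigen (z := z) (k := 0) h.prime.pos (by rw [pow_zero, map_one, one_mul, hz])
  rwa [pow_zero, mul_one] at h1

end Pool.Agent.H28.KL
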