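import Pool.Agent.H28.KL.Gdl
import Pool.Agent.H28.IQ.Plane

/-!
# Plane curves obtained from the line by automorphisms of the plane and cyclic covers
-/

set_option autoImplicit false

namespace Pool.Agent.H28.KL

open Polynomial Finset
open Pool.Agent.H28.IQ (Deg ell ell_mul ell_of_equiv isUnit_const biv_ext map_biv biv_comp lf lf_mk
  lf_px lf_py px py P_ext mk_eq relation mapP mapP_mk py_prime ell_py)

variable {F : Type} [Field F]

/-- decomposition of a polynomial according to the residue of the exponents -/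
theorem decomp_poly {A : Type} [CommRing A] {l : ℕ} (hl : 0 < l) (G : A[X]) :
    ∃ a : ℕ → A[X], G = ∑ i ∈ range l, (a i).comp (X ^ l) * X ^ i := by
  induction G using Polynomial.induction_on' with
  | add p q hp hq =>
    obtain ⟨a, ha⟩ := hp
    obtain ⟨b, hb⟩ := hq
    refine ⟨fun i => a i + b i, ?_⟩
    conv_lhs => rw [ha, hb, ← sum_add_distrib]
    refine sum_congr rfl fun i _ => ?_
    rw [add_comp, add_mul]
  | monomial n c =>
    refine ⟨fun i => if i = n % l then C c * X ^ (n / l) else 0, ?_⟩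
    rw [sum_eq_single (n % l)]
    · beta_reduce
      rw [if_pos rfl, mul_comp, C_comp, pow_comp, X_comp, ← C_mul_X_pow_eq_monomial, mul_assoc,
        ← pow_mul, ← pow_add, Nat.div_add_mod]
    · intro i _ hi
      beta_reduce
      rw [if_neg hi, zero_comp, zero_mul]
    · intro h
      exact absurd (mem_range.2 (Nat.mod_lt n hl)) h

theorem dvd_of_comp {A : Type} [CommRing A] {l : ℕ} (hl : l ≠ 0) {f G : A[X]}
    (h : f.comp (X ^ l) ∣ G.comp (X ^ l)) : f ∣ G := by
  rw [← expand_eq_comp_X_pow, ← expand_eq_comp_X_pow] at h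
  obtain ⟨H, hH⟩ := h
  refine ⟨contract l H, ?_⟩
  have h1 := congrArg (contract l) hH
  rw [contract_expand l hl, mul_comm, contract_mul_expand hl, mul_comm] at h1
  exact h1

/-- the inclusion of the coordinate rings -/
noncomputable def psiL (l : ℕ) (f : F[X][X]) : AdjoinRoot f →ₐ[F] AdjoinRoot (f.comp (X ^ l)) :=
  lf f (px (f.comp (X ^ l))) (py (f.comp (X ^ l)) ^ l) (by
    have h := relation (f.comp (X ^ l))
    rw [biv_comp, map_pow, aevalAeval_Y] at h
    exact h)

theorem psiL_mk (l : ℕ) (f G : F[X][X]) :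
    psiL l f (AdjoinRoot.mk f G) = AdjoinRoot.mk _ (G.comp (X ^ l)) := by
  unfold psiL
  rw [lf_mk, mk_eq, biv_comp, map_pow, aevalAeval_Y]

theorem psiL_px (l : ℕ) (f : F[X][X]) : psiL l f (px f) = px (f.comp (X ^ l)) := lf_px _ _ _ _

theorem psiL_py (l : ℕ) (f : F[X][X]) : psiL l f (py f) = py (f.comp (X ^ l)) ^ l :=
  lf_py _ _ _ _

theorem psiL_injective {l : ℕ} (hl : l ≠ 0) (f : F[X][X]) : Function.Injective (psiL l f) := by
  rw [injective_iff_map_eq_zero]
  intro z hz
  obtain ⟨G, rfl⟩ := AdjoinRoot.mk_surjective z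
  rw [psiL_mk, AdjoinRoot.mk_eq_zero] at hz
  rw [AdjoinRoot.mk_eq_zero]
  exact dvd_of_comp hl hz

/-- multiplication of the second coordinate by an `l`-th root of unity -/
noncomputable def rot {l : ℕ} (f : F[X][X]) {c : F} (hc : c ^ l = 1) :
    AdjoinRoot (f.comp (X ^ l)) →ₐ[F] AdjoinRoot (f.comp (X ^ l)) :=
  lf (f.comp (X ^ l)) (px (f.comp (X ^ l))) (algebraMap F _ c * py (f.comp (X ^ l))) (by
    have h := relation (f.comp (X ^ l))
    rw [biv_comp, map_pow, aevalAeval_Y] at h ⊢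
    rw [mul_pow, ← map_pow, hc, map_one, one_mul]
    exact h)

theorem rot_px {l : ℕ} (f : F[X][X]) {c : F} (hc : c ^ l = 1) :
    rot f hc (px (f.comp (X ^ l))) = px (f.comp (X ^ l)) := lf_px _ _ _ _

theorem rot_py {l : ℕ} (f : F[X][X]) {c : F} (hc : c ^ l = 1) :
    rot f hc (py (f.comp (X ^ l))) = algebraMap F _ c * py (f.comp (X ^ l)) := lf_py _ _ _ _

theorem rot_psi {l : ℕ} (f : F[X][X]) {c : F} (hc : c ^ l = 1) (z : AdjoinRoot f) :
    rot f hc (psiL l f z) = psiL l f z := by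
  have h : (rot f hc).comp (psiL l f) = psiL l f := by
    apply P_ext
    · change rot f hc (psiL l f (px f)) = psiL l f (px f)
      rw [psiL_px, rot_px]
    · change rot f hc (psiL l f (py f)) = psiL l f (py f)
      rw [psiL_py, map_pow, rot_py, mul_pow, ← map_pow, hc, map_one, one_mul]
  exact congrFun (congrArg DFunLike.coe h) z

theorem rot_rot {l : ℕ} (f : F[X][X]) {c d : F} (hc : c ^ l = 1) (hd : d ^ l = 1) (hcd : c * d = 1)
    (z : AdjoinRoot (f.comp (X ^ l))) : rot f hc (rot f hd z) = z := by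
  have h : (rot f hc).comp (rot f hd) = AlgHom.id F _ := by
    apply P_ext
    · change rot f hc (rot f hd (px _)) = px _
      rw [rot_px, rot_px]
    · change rot f hc (rot f hd (py _)) = py _
      rw [rot_py, map_mul, rot_py, AlgHom.commutes, ← mul_assoc, ← map_mul, mul_comm d c, hcd,
        map_one, one_mul]
  exact congrFun (congrArg DFunLike.coe h) z

theorem gdl_root {l : ℕ} (hl : l.Prime) {ζ : F} (hζ : IsPrimitiveRoot ζ l) {f : F[X][X]}
    (h : Gdl F (AdjoinRoot f) l) (hirr : Irreducible (f.eval 0))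
    (hdeg : Nat.Coprime (f.eval 0).natDegree l) : Gdl F (AdjoinRoot (f.comp (X ^ l))) l := by
  have hded := h.ded
  have hζ1 : ζ ^ l = 1 := hζ.pow_eq_one
  have hζ2 : (ζ⁻¹) ^ l = 1 := by rw [inv_pow, hζ1, inv_one]
  have hζ0 : ζ ≠ 0 := hζ.ne_zero hl.ne_zero
  let _ : Algebra (AdjoinRoot f) (AdjoinRoot (f.comp (X ^ l))) := (psiL l f).toRingHom.toAlgebra
  have : IsScalarTower F (AdjoinRoot f) (AdjoinRoot (f.comp (X ^ l))) :=
    IsScalarTower.of_algebraMap_eq fun r => ((psiL l f).commutes r).symm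
  let σ : AdjoinRoot (f.comp (X ^ l)) ≃ₐ[AdjoinRoot f] AdjoinRoot (f.comp (X ^ l)) :=
    { toFun := rot f hζ1
      invFun := rot f hζ2
      left_inv := rot_rot f hζ2 hζ1 (inv_mul_cancel₀ hζ0)
      right_inv := rot_rot f hζ1 hζ2 (mul_inv_cancel₀ hζ0)
      map_mul' := map_mul _
      map_add' := map_add _
      commutes' := rot_psi f hζ1 }
  have hK : Kum l ζ (py f) (py (f.comp (X ^ l))) σ :=
    { prime := hl
      prim := hζ
      inj := psiL_injective hl.ne_zero f
      ne := (py_prime inferInstance hirr).1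
      pow := (psiL_py l f).symm
      sig := rot_py f hζ1
      span := by
        intro z
        obtain ⟨G, rfl⟩ := AdjoinRoot.mk_surjective z
        obtain ⟨a, ha⟩ := decomp_poly hl.pos G
        refine ⟨fun i => AdjoinRoot.mk f (a i), ?_⟩
        conv_lhs => rw [ha, map_sum]
        refine sum_congr rfl fun i _ => ?_
        rw [map_mul, map_pow, ← psiL_mk]
        rfl }
  exact h.kum hK (py_prime inferInstance hirr) hdeg (ell_py hirr.ne_zero)

theorem gdl_line (F : Type) [Field F] (l : ℕ) : Gdl F (AdjoinRoot (X : F[X][X])) l := by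
  let φ : AdjoinRoot (X : F[X][X]) →ₐ[F] F[X] := lf X X 0 (aevalAeval_Y _ _)
  let ψ : F[X] →ₐ[F] AdjoinRoot (X : F[X][X]) := aeval (px X)
  have e : F[X] ≃ₐ[F] AdjoinRoot (X : F[X][X]) := AlgEquiv.ofAlgHom ψ φ (by
    apply P_ext
    · change ψ (φ (px X)) = px X
      have h1 : φ (px X) = X := lf_px _ _ _ _
      rw [h1]
      exact aeval_X _
    · change ψ (φ (py X)) = py X
      have h1 : φ (py X) = 0 := lf_py _ _ _ _
      rw [h1, map_zero]
      exact (AdjoinRoot.mk_self).symm) (by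
    apply Polynomial.algHom_ext
    change φ (ψ X) = X
    have h1 : ψ X = px X := aeval_X _
    rw [h1]
    exact lf_px _ _ _ _)
  exact (gdl_poly F l).of_equiv e

theorem gdl_aut {l : ℕ} {f : F[X][X]} (h : Gdl F (AdjoinRoot f) l) (σ : F[X][X] ≃ₐ[F] F[X][X]) :
    Gdl F (AdjoinRoot (σ f)) l := by
  have h1 : (σ : F[X][X] →ₐ[F] F[X][X]) f = σ f := rfl
  have h2 : (σ.symm : F[X][X] →ₐ[F] F[X][X]) (σ f) = f := σ.symm_apply_apply f
  refine h.of_equiv (AlgEquiv.ofAlgHom (mapP f (σ f) σ h1) (mapP (σ f) f σ.symm h2) ?_ ?_)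
  · apply AlgHom.ext
    intro z
    obtain ⟨G, rfl⟩ := AdjoinRoot.mk_surjective z
    change mapP f (σ f) σ h1 (mapP (σ f) f σ.symm h2 (AdjoinRoot.mk _ G)) = AdjoinRoot.mk _ G
    rw [mapP_mk, mapP_mk]
    exact congrArg _ (σ.apply_symm_apply G)
  · apply AlgHom.ext
    intro z
    obtain ⟨G, rfl⟩ := AdjoinRoot.mk_surjective z
    change mapP (σ f) f σ.symm h2 (mapP f (σ f) σ h1 (AdjoinRoot.mk _ G)) = AdjoinRoot.mk _ G
    rw [mapP_mk, mapP_mk]
    exact congrArg _ (σ.symm_apply_apply G)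

/-- The smallest class of polynomials `f ∈ F[t][x]` (`x` is the outer variable) which contains `x`,
is closed under the automorphisms of the `F`-algebra `F[t, x]`, and contains with `f(t, x)` also
`f(t, x ^ l)`, provided that `f(t, 0) ∈ F[t]` is irreducible of degree prime to `l`. -/
inductive Cov {F : Type} [Field F] (l : ℕ) : F[X][X] → Prop
  | line : Cov l X
  | aut (f : F[X][X]) (σ : F[X][X] ≃ₐ[F] F[X][X]) : Cov l f → Cov l (σ f)
  | root (f : F[X][X]) : Cov l f → Irreducible (f.eval 0) →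
      Nat.Coprime (f.eval 0).natDegree l → Cov l (f.comp (X ^ l))

theorem gdl {l : ℕ} (hl : l.Prime) {ζ : F} (hζ : IsPrimitiveRoot ζ l) {f : F[X][X]}
    (h : Cov l f) : Gdl F (AdjoinRoot f) l := by
  induction h with
  | line => exact gdl_line F l
  | aut f σ _ ih => exact gdl_aut ih σ
  | root f _ h3 h4 ih => exact gdl_root hl hζ ih h3 h4

theorem class_of_powP {l : ℕ} {R : Type} [CommRing R] [IsDedekindDomain R] (h : PowP l R)
    (c : ClassGroup R) (hc : c ^ l = 1) : c = 1 := by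
  obtain ⟨I, rfl⟩ := ClassGroup.mk0_surjective c
  rw [← map_pow, ClassGroup.mk0_eq_one_iff] at hc
  rw [ClassGroup.mk0_eq_one_iff]
  exact h _ hc

/-- the coordinate ring of a curve in the class: Dedekind domain, class group without elements of
order `l`, constant units -/
theorem coordinateRing {l : ℕ} (hl : l.Prime) {ζ : F} (hζ : IsPrimitiveRoot ζ l) {f : F[X][X]}
    (h : Cov l f) :
    ∃ _ : IsDedekindDomain (AdjoinRoot f),
      (∀ c : ClassGroup (AdjoinRoot f), c ^ l = 1 → c = 1) ∧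
      (∀ u : (AdjoinRoot f)ˣ, ∃ c : F, (u : AdjoinRoot f) = algebraMap F _ c) := by
  obtain ⟨hded, hpow, D, hD, -⟩ := gdl hl hζ h
  refine ⟨hded, fun c hc => class_of_powP hpow c hc, fun u => ?_⟩
  obtain ⟨c, -, hc⟩ := isUnit_const hD u.isUnit
  exact ⟨c, hc⟩

end Pool.Agent.H28.KL
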