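import Pool.Agent.H28.KL.PlaneL
import Pool.Agent.H28.IQ.Red

/-!
# Examples of curves in the class
-/

set_option autoImplicit false

namespace Pool.Agent.H28.KL

open Polynomial
open Pool.Agent.H28.IQ (biv_ext compHom separable_of_comp)

variable {F : Type} [Field F] {l : ℕ}

/-- substitutions of the second variable which are automorphisms -/
theorem cov_subst {f : F[X][X]} (h : Cov l f) (q q' : F[X][X]) (h1 : q.comp q' = X)
    (h2 : q'.comp q = X) : Cov l (f.comp q) := by
  let σ : F[X][X] ≃ₐ[F] F[X][X] := AlgEquiv.ofAlgHom (compHom q) (compHom q') (by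
    apply biv_ext
    · change ((C X).comp q').comp q = C X
      rw [C_comp, C_comp]
    · change ((X : F[X][X]).comp q').comp q = X
      rw [X_comp, h2]) (by
    apply biv_ext
    · change ((C X).comp q).comp q' = C X
      rw [C_comp, C_comp]
    · change ((X : F[X][X]).comp q).comp q' = X
      rw [X_comp, h1])
  exact Cov.aut f σ h

theorem cov_affine {f : F[X][X]} (h : Cov l f) {a : F} (ha : a ≠ 0) (b : F[X]) :
    Cov l (f.comp (C (C a) * X + C b)) := by
  have h3 : (C (C a) * C (C a⁻¹) : F[X][X]) = 1 := by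
    rw [← map_mul, ← map_mul, mul_inv_cancel₀ ha, map_one, map_one]
  refine cov_subst h _ (C (C a⁻¹) * (X - C b)) ?_ ?_
  · simp only [add_comp, mul_comp, C_comp, X_comp]
    rw [← mul_assoc, h3]
    ring
  · simp only [sub_comp, mul_comp, C_comp, X_comp]
    rw [add_sub_cancel_right, ← mul_assoc, mul_comm (C (C a⁻¹) : F[X][X]), h3, one_mul]

/-- the line `t = g(x)` -/
theorem cov_base (g : F[X]) : Cov l (C g - X : F[X][X]) := by
  have h := cov_affine (Cov.line (l := l)) (neg_ne_zero.2 (one_ne_zero : (1 : F) ≠ 0)) g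
  have h1 : (X : F[X][X]).comp (C (C (-1)) * X + C g) = C g - X := by
    rw [X_comp, map_neg, map_neg, map_one, map_one]
    ring
  rwa [h1] at h

/-- substitutions `t = e (t' + m(x)) ^ l + c(x)` -/
theorem cov_pow {f : F[X][X]} (h : Cov l f) {e : F} (he : e ≠ 0) (m c : F[X])
    (hirr : Irreducible (f.eval c)) (hdeg : Nat.Coprime (f.eval c).natDegree l) :
    Cov l (f.comp (C (C e) * (X + C m) ^ l + C c)) := by
  have h1 := cov_affine h he c
  have h2 : (f.comp (C (C e) * X + C c)).eval 0 = f.eval c := by
    rw [eval_comp]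
    simp
  have h3 := Cov.root _ h1 (by rwa [h2]) (by rwa [h2])
  have h4 := cov_affine h3 (one_ne_zero : (1 : F) ≠ 0) m
  have h5 : ((f.comp (C (C e) * X + C c)).comp (X ^ l)).comp (C (C 1) * X + C m) =
      f.comp (C (C e) * (X + C m) ^ l + C c) := by
    rw [comp_assoc, comp_assoc]
    congr 1
    simp only [add_comp, mul_comp, C_comp, X_comp, pow_comp, map_one, one_mul]
  rwa [h5] at h4

/-- compositions of polynomials `e (X + m) ^ l + c` -/
inductive IterPow {F : Type} [Field F] (l : ℕ) : F[X] → Prop
  | X : IterPow l X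
  | comp (T : F[X]) (e m c : F) : IterPow l T → e ≠ 0 →
      IterPow l (T.comp (C e * (Polynomial.X + C m) ^ l + C c))

theorem natDegree_pow_form {e : F} (he : e ≠ 0) (m c : F) :
    (C e * (X + C m) ^ l + C c : F[X]).natDegree = l := by
  rw [natDegree_add_C, natDegree_C_mul he, natDegree_pow, natDegree_X_add_C, mul_one]

theorem not_separable_pow (hl : 2 ≤ l) {T : F[X]} (e m c : F) :
    ¬ (T.comp (C e * (X + C m) ^ l + C c) - C (T.eval c)).Separable := by
  intro h
  have h1 : X - C c ∣ T - C (T.eval c) := by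
    rw [dvd_iff_isRoot, IsRoot, eval_sub, eval_C, sub_self]
  obtain ⟨R, hR⟩ := h1
  set q : F[X] := C e * (X + C m) ^ l + C c with hq
  have h2 : T.comp q - C (T.eval c) = (X + C m) * (X + C m) *
      (C e * (X + C m) ^ (l - 2) * R.comp q) := by
    have h3 : T.comp q - C (T.eval c) = (T - C (T.eval c)).comp q := by
      rw [sub_comp, C_comp]
    have h4 : q - C c = C e * (X + C m) ^ l := by
      rw [hq]
      ring
    have h5 : (X + C m : F[X]) ^ l = (X + C m) * (X + C m) * (X + C m) ^ (l - 2) := by
      rw [← pow_two, ← pow_add]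
      congr 1
      omega
    rw [h3, hR, mul_comp, sub_comp, X_comp, C_comp, h4, h5]
    ring
  have h5 := h.squarefree (X + C m) (Dvd.intro _ h2.symm)
  exact not_isUnit_X_add_C m h5

/-- `g(x) - T(t)` is in the class -/
theorem cov_iter (hl : 2 ≤ l) {g : F[X]} (hg : Nat.Coprime g.natDegree l) {T : F[X]}
    (hT : IterPow l T) (hirr : ∀ b : F, ¬ (T - C b).Separable → Irreducible (g - C b)) :
    Cov l (C g - T.map C : F[X][X]) := by
  induction hT with
  | X =>
    rw [Polynomial.map_X]
    exact cov_base g
  | comp T e m c hT he ih =>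
    have h1 : Cov l (C g - T.map C : F[X][X]) := by
      apply ih
      intro b hb
      apply hirr
      intro h3
      apply hb
      apply separable_of_comp (q := C e * (X + C m) ^ l + C c)
        (by rw [natDegree_pow_form he]; omega)
      rwa [sub_comp, C_comp]
    have h3 : (C g - T.map C : F[X][X]).eval (C c) = g - C (T.eval c) := by
      rw [eval_sub, eval_C, eval_map, eval₂_at_apply]
    have h4 := cov_pow h1 he (C m) (C c) (by rw [h3]; exact hirr _ (not_separable_pow hl e m c))
      (by rw [h3, natDegree_sub_C]; exact hg)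
    have h5 : (C g - T.map C : F[X][X]).comp (C (C e) * (X + C (C m)) ^ l + C (C c)) =
        C g - (T.comp (C e * (X + C m) ^ l + C c)).map C := by
      rw [sub_comp, C_comp, Polynomial.map_comp]
      congr 2
      simp only [Polynomial.map_add, Polynomial.map_mul, Polynomial.map_pow, Polynomial.map_C,
        Polynomial.map_X]
    rwa [h5] at h4

theorem cov_iter' (hl : 2 ≤ l) {g : F[X]} (hg : Nat.Coprime g.natDegree l) {T : F[X]}
    (hT : IterPow l T) (hirr : ∀ b : F, ¬ (T - C b).Separable → Irreducible (g - C b)) :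
    Cov l (g.map C - C T : F[X][X]) := by
  have h := Cov.aut _ Bivariate.swap (cov_iter hl hg hT hirr)
  rwa [map_sub, Bivariate.swap_C, Bivariate.swap_map_C] at h

end Pool.Agent.H28.KL
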